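import Pool.Agent.Weil.Inv

set_option autoImplicit false

/-! MODULE SQF (helper68): two-pole sums for squarefree moduli. -/

namespace Pool.Agent.Weil

open Classical in
/-- two-pole sum modulo `q` -/
noncomputable def twoSum (q : ℕ) [NeZero q] (ψ : AddChar (ZMod q) ℂ) (a₁ a₂ b c : ℤ) : ℂ :=
  ∑ n : ZMod q with IsUnit n ∧ IsUnit (n + (b : ZMod q)),
    ψ ((a₁ : ZMod q) * n⁻¹ + (a₂ : ZMod q) * (n + (b : ZMod q))⁻¹ + (c : ZMod q) * n)

/-- the primes at which the sum is trivial -/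
def Triv (p : ℕ) (a₁ a₂ b c : ℤ) : Prop :=
  (p : ℤ) ∣ c ∧ (p : ℤ) ∣ a₁ + a₂ ∧ ((p : ℤ) ∣ b ∨ (p : ℤ) ∣ a₁)

open Classical in
/-- the local bound -/
noncomputable def locW (a₁ a₂ b c : ℤ) (p : ℕ) : ℝ :=
  if Triv p a₁ a₂ b c then (p : ℝ) else 4 * Real.sqrt p

theorem sqf_prime (p : ℕ) (hp : p.Prime) [NeZero p] (ψ : AddChar (ZMod p) ℂ)
    (hψ : ψ.IsPrimitive) (a₁ a₂ b c : ℤ) :
    ‖twoSum p ψ a₁ a₂ b c‖ ≤ locW a₁ a₂ b c p := by
  classical
  have := Fact.mk hp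
  unfold locW
  split_ifs with h
  · unfold twoSum
    refine (norm_sum_le _ _).trans ?_
    rw [Finset.sum_congr rfl fun x _ => AddChar.norm_apply ψ _, Finset.sum_const, nsmul_eq_mul,
      mul_one]
    have h1 := Finset.card_le_univ (Finset.univ.filter fun n : ZMod p =>
      IsUnit n ∧ IsUnit (n + (b : ZMod p)))
    rw [ZMod.card] at h1
    exact_mod_cast h1
  · have hψ1 : ψ ≠ 1 := by
      have := hψ (one_ne_zero : (1 : ZMod p) ≠ 0)
      rwa [AddChar.mulShift_one] at this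
    have h1 := two_bound (a₁ : ZMod p) (a₂ : ZMod p) (b : ZMod p) (c : ZMod p) ψ hψ1 (by
      rintro ⟨h2, h3, h4⟩
      apply h
      refine ⟨(ZMod.intCast_zmod_eq_zero_iff_dvd _ _).mp h2,
        (ZMod.intCast_zmod_eq_zero_iff_dvd _ _).mp (by push_cast; exact h3), ?_⟩
      rcases h4 with h4 | h4
      · exact Or.inl ((ZMod.intCast_zmod_eq_zero_iff_dvd _ _).mp h4)
      · exact Or.inr ((ZMod.intCast_zmod_eq_zero_iff_dvd _ _).mp h4))
    refine le_trans (le_of_eq ?_) h1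
    congr 1
    unfold twoSum
    apply Finset.sum_congr
    · ext x
      simp only [Finset.mem_filter, Finset.mem_univ, true_and, isUnit_iff_ne_zero]
    · intro x _
      rw [div_eq_mul_inv, div_eq_mul_inv]

theorem sqf_mul (m n : ℕ) [NeZero m] [NeZero n] [NeZero (m * n)] (h : m.Coprime n)
    (ψ : AddChar (ZMod (m * n)) ℂ) (hψ : ψ.IsPrimitive) :
    ∃ (ψ₁ : AddChar (ZMod m) ℂ) (ψ₂ : AddChar (ZMod n) ℂ), ψ₁.IsPrimitive ∧ ψ₂.IsPrimitive ∧
      ∀ a₁ a₂ b c : ℤ, twoSum (m * n) ψ a₁ a₂ b c =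
        twoSum m ψ₁ a₁ a₂ b c * twoSum n ψ₂ a₁ a₂ b c := by
  classical
  obtain ⟨e, he⟩ : ∃ e : ZMod (m * n) ≃+* ZMod m × ZMod n, e = ZMod.chineseRemainder h :=
    ⟨_, rfl⟩
  clear he
  obtain ⟨ψ₁, h₁⟩ : ∃ ψ₁ : AddChar (ZMod m) ℂ, ∀ x, ψ₁ x = ψ (e.symm (x, 0)) :=
    ⟨ψ.compAddMonoidHom (e.symm.toAddMonoidHom.comp (AddMonoidHom.inl _ _)), fun x => rfl⟩
  obtain ⟨ψ₂, h₂⟩ : ∃ ψ₂ : AddChar (ZMod n) ℂ, ∀ y, ψ₂ y = ψ (e.symm (0, y)) :=
    ⟨ψ.compAddMonoidHom (e.symm.toAddMonoidHom.comp (AddMonoidHom.inr _ _)), fun x => rfl⟩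
  have hsplit : ∀ x y, ψ (e.symm (x, y)) = ψ₁ x * ψ₂ y := by
    intro x y
    rw [h₁, h₂, ← AddChar.map_add_eq_mul, ← map_add]
    simp
  refine ⟨ψ₁, ψ₂, ?_, ?_, ?_⟩
  · intro a ha h1
    have h2 : e.symm (a, 0) ≠ 0 := by
      intro h3
      have : (a, (0 : ZMod n)) = 0 := by
        rw [← e.apply_symm_apply (a, 0), h3, map_zero]
      exact ha (Prod.mk.inj this).1
    apply hψ h2
    ext z
    obtain ⟨⟨x, y⟩, rfl⟩ := e.symm.surjective z
    rw [AddChar.mulShift_apply, ← map_mul, Prod.mk_mul_mk, zero_mul, ← h₁]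
    have h3 := congrArg (fun φ => φ x) h1
    simpa [AddChar.mulShift_apply] using h3
  · intro a ha h1
    have h2 : e.symm (0, a) ≠ 0 := by
      intro h3
      have : ((0 : ZMod m), a) = 0 := by
        rw [← e.apply_symm_apply (0, a), h3, map_zero]
      exact ha (Prod.mk.inj this).2
    apply hψ h2
    ext z
    obtain ⟨⟨x, y⟩, rfl⟩ := e.symm.surjective z
    rw [AddChar.mulShift_apply, ← map_mul, Prod.mk_mul_mk, zero_mul, ← h₂]
    have h3 := congrArg (fun φ => φ y) h1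
    simpa [AddChar.mulShift_apply] using h3
  · intro a₁ a₂ b c
    have hint : ∀ (k : ℤ), (k : ZMod (m * n)) = e.symm ((k : ZMod m), (k : ZMod n)) := by
      intro k
      rw [← map_intCast e.symm k]
      rfl
    have hunit : ∀ x y, IsUnit (e.symm (x, y)) ↔ IsUnit x ∧ IsUnit y := by
      intro x y
      rw [← Prod.isUnit_iff (x := (x, y))]
      exact MulEquiv.isUnit_map e.symm
    have hinv : ∀ x y, IsUnit x → IsUnit y → (e.symm (x, y))⁻¹ = e.symm (x⁻¹, y⁻¹) := by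
      intro x y hx hy
      have h3 : IsUnit (e.symm (x, y)) := (hunit x y).mpr ⟨hx, hy⟩
      apply h3.mul_left_cancel
      rw [ZMod.mul_inv_of_unit _ h3, ← map_mul, Prod.mk_mul_mk, ZMod.mul_inv_of_unit _ hx,
        ZMod.mul_inv_of_unit _ hy]
      exact (map_one e.symm).symm
    unfold twoSum
    rw [Finset.sum_mul_sum, ← Finset.sum_product']
    symm
    refine Finset.sum_bij (fun z _ => e.symm z) ?_ ?_ ?_ ?_
    · rintro ⟨x, y⟩ hz
      rw [Finset.mem_product, Finset.mem_filter, Finset.mem_filter] at hz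
      obtain ⟨⟨_, h3, h4⟩, ⟨_, h5, h6⟩⟩ := hz
      rw [Finset.mem_filter]
      refine ⟨Finset.mem_univ _, (hunit x y).mpr ⟨h3, h5⟩, ?_⟩
      rw [hint b, ← map_add, Prod.mk_add_mk]
      exact (hunit _ _).mpr ⟨h4, h6⟩
    · intro z _ z' _ h3
      exact e.symm.injective h3
    · intro w hw
      rw [Finset.mem_filter] at hw
      obtain ⟨⟨x, y⟩, rfl⟩ := e.symm.surjective w
      obtain ⟨_, h3, h4⟩ := hw
      rw [hint b, ← map_add, Prod.mk_add_mk, hunit] at h4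
      rw [hunit] at h3
      refine ⟨(x, y), ?_, rfl⟩
      rw [Finset.mem_product, Finset.mem_filter, Finset.mem_filter]
      exact ⟨⟨Finset.mem_univ _, h3.1, h4.1⟩, ⟨Finset.mem_univ _, h3.2, h4.2⟩⟩
    · rintro ⟨x, y⟩ hz
      rw [Finset.mem_product, Finset.mem_filter, Finset.mem_filter] at hz
      obtain ⟨⟨_, h3, h4⟩, ⟨_, h5, h6⟩⟩ := hz
      dsimp only at h3 h4 h5 h6 ⊢
      rw [← hsplit, hint a₁, hint a₂, hint b, hint c, ← map_add, Prod.mk_add_mk,
        hinv x y h3 h5, hinv _ _ h4 h6, ← map_mul, ← map_mul, ← map_mul, ← map_add, ← map_add,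
        Prod.mk_mul_mk, Prod.mk_mul_mk, Prod.mk_mul_mk, Prod.mk_add_mk, Prod.mk_add_mk]

theorem locW_nonneg (a₁ a₂ b c : ℤ) (p : ℕ) : 0 ≤ locW a₁ a₂ b c p := by
  unfold locW
  split_ifs <;> positivity

/-- The bound as a product of local factors. -/
theorem sqf_prod (q : ℕ) : ∀ [NeZero q] (ψ : AddChar (ZMod q) ℂ), ψ.IsPrimitive → Squarefree q →
    ∀ a₁ a₂ b c : ℤ, ‖twoSum q ψ a₁ a₂ b c‖ ≤ ∏ p ∈ q.primeFactors, locW a₁ a₂ b c p := by
  induction q using Nat.recOnPosPrimePosCoprime with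
  | prime_pow p n hp hn =>
    intro _ ψ hψ hq a₁ a₂ b c
    have hn1 : n = 1 := by
      rcases hq.eq_zero_or_one_of_pow_of_not_isUnit (by
        rw [Nat.isUnit_iff]; exact hp.one_lt.ne') with h | h
      · omega
      · exact h
    subst hn1
    have h1 : ∀ (q : ℕ) (_ : q = p) [NeZero q] (ψ : AddChar (ZMod q) ℂ), ψ.IsPrimitive →
        ‖twoSum q ψ a₁ a₂ b c‖ ≤ locW a₁ a₂ b c p := by
      intro q hqp _ ψ' hψ'
      subst hqp
      exact sqf_prime q hp ψ' hψ' a₁ a₂ b c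
    have h2 := h1 (p ^ 1) (pow_one p) ψ hψ
    have h3 : (p ^ 1).primeFactors = {p} := by rw [pow_one, hp.primeFactors]
    rw [h3, Finset.prod_singleton]
    exact h2
  | zero =>
    intro h
    exact absurd rfl h.out
  | one =>
    intro _ ψ hψ hq a₁ a₂ b c
    classical
    rw [Nat.primeFactors_one, Finset.prod_empty]
    unfold twoSum
    refine (norm_sum_le _ _).trans ?_
    rw [Finset.sum_congr rfl fun x _ => AddChar.norm_apply ψ _, Finset.sum_const, nsmul_eq_mul,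
      mul_one]
    have h1 := Finset.card_le_univ (Finset.univ.filter fun n : ZMod 1 =>
      IsUnit n ∧ IsUnit (n + (b : ZMod 1)))
    rw [ZMod.card] at h1
    exact_mod_cast h1
  | coprime m n hm hn hmn ihm ihn =>
    intro _ ψ hψ hq a₁ a₂ b c
    have : NeZero m := ⟨by omega⟩
    have : NeZero n := ⟨by omega⟩
    obtain ⟨ψ₁, ψ₂, h1, h2, h3⟩ := sqf_mul m n hmn ψ hψ
    rw [h3, norm_mul, hmn.primeFactors_mul, Finset.prod_union hmn.disjoint_primeFactors]
    exact mul_le_mul (ihm ψ₁ h1 (hq.of_mul_left) a₁ a₂ b c)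
      (ihn ψ₂ h2 (hq.of_mul_right) a₁ a₂ b c) (norm_nonneg _)
      (Finset.prod_nonneg fun p _ => locW_nonneg _ _ _ _ _)

/-- The final form: if every prime `p ∣ q` at which the sum is trivial divides `g`, then the sum
is at most `4 ^ ω(q) * sqrt q * sqrt (gcd (q, g))`. -/
theorem sqf_bound (q : ℕ) [NeZero q] (hq : Squarefree q) (ψ : AddChar (ZMod q) ℂ)
    (hψ : ψ.IsPrimitive) (a₁ a₂ b c : ℤ) (g : ℕ)
    (hg : ∀ p, p.Prime → p ∣ q → Triv p a₁ a₂ b c → p ∣ g) :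
    ‖twoSum q ψ a₁ a₂ b c‖ ≤ 4 ^ q.primeFactors.card * Real.sqrt q * Real.sqrt (q.gcd g) := by
  classical
  refine (sqf_prod q ψ hψ hq a₁ a₂ b c).trans ?_
  have h1 : ∀ p ∈ q.primeFactors, locW a₁ a₂ b c p ≤
      4 * Real.sqrt p * (if Triv p a₁ a₂ b c then Real.sqrt p else 1) := by
    intro p hp
    unfold locW
    split_ifs with h
    · have h2 := Real.mul_self_sqrt (Nat.cast_nonneg (α := ℝ) p)
      nlinarith [Nat.cast_nonneg (α := ℝ) p]
    · rw [mul_one]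
  refine (Finset.prod_le_prod (fun p _ => locW_nonneg _ _ _ _ _) h1).trans ?_
  rw [Finset.prod_mul_distrib, Finset.prod_mul_distrib, Finset.prod_const]
  have h2 : ∏ p ∈ q.primeFactors, Real.sqrt (p : ℝ) = Real.sqrt q := by
    rw [← Real.sqrt_prod _ fun p _ => Nat.cast_nonneg p]
    congr 1
    have h3 := congrArg (Nat.cast : ℕ → ℝ) (Nat.prod_primeFactors_of_squarefree hq)
    rw [Nat.cast_prod] at h3
    exact h3
  have h3 : ∏ p ∈ q.primeFactors, (if Triv p a₁ a₂ b c then Real.sqrt p else 1) ≤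
      Real.sqrt (q.gcd g) := by
    rw [← Finset.prod_filter, ← Real.sqrt_prod _ fun p _ => Nat.cast_nonneg p]
    apply Real.sqrt_le_sqrt
    have h4 : (∏ p ∈ q.primeFactors.filter (fun p => Triv p a₁ a₂ b c), p) ∣ q.gcd g := by
      apply Finset.prod_primes_dvd
      · intro p hp
        exact (Nat.prime_of_mem_primeFactors (Finset.mem_filter.mp hp).1).prime
      · intro p hp
        obtain ⟨h5, h6⟩ := Finset.mem_filter.mp hp
        exact Nat.dvd_gcd (Nat.dvd_of_mem_primeFactors h5)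
          (hg p (Nat.prime_of_mem_primeFactors h5) (Nat.dvd_of_mem_primeFactors h5) h6)
    have h5 := Nat.le_of_dvd (Nat.gcd_pos_of_pos_left _ (Nat.pos_of_ne_zero (NeZero.ne q))) h4
    have h6 : ((∏ p ∈ q.primeFactors.filter (fun p => Triv p a₁ a₂ b c), p : ℕ) : ℝ) ≤
        ((q.gcd g : ℕ) : ℝ) := Nat.cast_le.mpr h5
    rw [Nat.cast_prod] at h6
    exact h6
  rw [h2]
  exact mul_le_mul_of_nonneg_left h3 (by positivity)

end Pool.Agent.Weil
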