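import Pool.Agent.Weil.Defs

set_option autoImplicit false

/-! MODULE CHI (helper68): the character on monic polynomials. -/

namespace Pool.Agent.Weil

open Polynomial

variable (p : ℕ) [Fact p.Prime]

theorem mon_finite (d : ℕ) : {G : (ZMod p)[X] | G.Monic ∧ G.natDegree = d}.Finite := by
  have h1 : Finite (degreeLT (ZMod p) d) := by
    have := (degreeLTEquiv (ZMod p) d).toEquiv
    exact Finite.of_equiv _ this.symm
  have h2 : Finite {G : (ZMod p)[X] // G.Monic ∧ G.natDegree = d} :=
    Finite.of_equiv _ (monicEquivDegreeLT d).symm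
  exact h2

/-- monic polynomials of degree `d` -/
noncomputable def mon (d : ℕ) : Finset (ZMod p)[X] := (mon_finite p d).toFinset

variable {p}

theorem mem_mon {d : ℕ} {G : (ZMod p)[X]} : G ∈ mon p d ↔ G.Monic ∧ G.natDegree = d := by
  unfold mon
  simp

variable {r : ℕ} (C : ZMod p) (A b : Fin r → ZMod p) (ψ : AddChar (ZMod p) ℂ)

/-- trace of `f` on the zeros of `G` -/
noncomputable def lam (G : (ZMod p)[X]) : ZMod p :=
  -C * G.nextCoeff - ∑ i, A i * ((derivative G).eval (b i) / G.eval (b i))

open Classical in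
/-- the character -/
noncomputable def chi (G : (ZMod p)[X]) : ℂ :=
  if ∀ i, G.eval (b i) ≠ 0 then ψ (lam C A b G) else 0

/-- coefficients of the L-function -/
noncomputable def cc (d : ℕ) : ℂ := ∑ G ∈ mon p d, chi C A b ψ G

theorem lam_mul {G H : (ZMod p)[X]} (hG : G.Monic) (hH : H.Monic) (h1 : ∀ i, G.eval (b i) ≠ 0)
    (h2 : ∀ i, H.eval (b i) ≠ 0) : lam C A b (G * H) = lam C A b G + lam C A b H := by
  unfold lam
  rw [hG.nextCoeff_mul hH]
  have h3 : ∀ i, A i * ((derivative (G * H)).eval (b i) / (G * H).eval (b i)) =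
      A i * ((derivative G).eval (b i) / G.eval (b i)) +
        A i * ((derivative H).eval (b i) / H.eval (b i)) := by
    intro i
    rw [derivative_mul, eval_add, eval_mul, eval_mul, eval_mul]
    have := h1 i
    have := h2 i
    field_simp
  rw [Finset.sum_congr rfl fun i _ => h3 i, Finset.sum_add_distrib]
  ring

theorem chi_mul {G H : (ZMod p)[X]} (hG : G.Monic) (hH : H.Monic) :
    chi C A b ψ (G * H) = chi C A b ψ G * chi C A b ψ H := by
  unfold chi
  by_cases h1 : ∀ i, G.eval (b i) ≠ 0
  · by_cases h2 : ∀ i, H.eval (b i) ≠ 0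
    · rw [if_pos h1, if_pos h2, if_pos, lam_mul C A b hG hH h1 h2, AddChar.map_add_eq_mul]
      intro i
      rw [eval_mul]
      exact mul_ne_zero (h1 i) (h2 i)
    · rw [if_neg h2, if_neg, mul_zero]
      intro h3
      apply h2
      intro i hi
      exact h3 i (by rw [eval_mul, hi, mul_zero])
  · rw [if_neg h1, if_neg, zero_mul]
    intro h3
    apply h1
    intro i hi
    exact h3 i (by rw [eval_mul, hi, zero_mul])

theorem chi_one : chi C A b ψ 1 = 1 := by
  unfold chi lam
  simp [nextCoeff]

theorem cc_zero : cc C A b ψ 0 = 1 := by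
  have : mon p 0 = {1} := by
    ext G
    rw [mem_mon, Finset.mem_singleton]
    constructor
    · rintro ⟨h1, h2⟩
      exact h1.natDegree_eq_zero.mp h2
    · rintro rfl
      exact ⟨monic_one, natDegree_one⟩
  unfold cc
  rw [this, Finset.sum_singleton, chi_one]

/-- The coefficients vanish above degree `2 r`. -/
theorem cc_eq_zero (hC : C ≠ 0) (hψ : ψ ≠ 1) (d : ℕ) (hd : 2 * r < d) : cc C A b ψ d = 0 := by
  classical
  obtain ⟨M, hM⟩ : ∃ M : (ZMod p)[X], M = X ^ (d - 1 - 2 * r) * (∏ i, (X - Polynomial.C (b i))) ^ 2 :=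
    ⟨_, rfl⟩
  have hPm : (∏ i, (X - Polynomial.C (b i))).Monic := monic_prod_of_monic _ _ fun i _ => monic_X_sub_C _
  have hPd : (∏ i, (X - Polynomial.C (b i))).natDegree = r := by
    rw [natDegree_prod_of_monic _ _ fun i _ => monic_X_sub_C _]
    simp
  have hMm : M.Monic := by
    rw [hM]
    exact (monic_X_pow _).mul (hPm.pow 2)
  have hMd : M.natDegree = d - 1 := by
    rw [hM, (monic_X_pow _).natDegree_mul (hPm.pow 2), natDegree_X_pow, hPm.natDegree_pow, hPd]
    omega
  have hMe : ∀ i, M.eval (b i) = 0 := by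
    intro i
    have h0 : (∏ i, (X - Polynomial.C (b i))).eval (b i) = 0 := by
      rw [eval_prod, Finset.prod_eq_zero (Finset.mem_univ i)]
      simp
    rw [hM, eval_mul, eval_pow (n := 2), h0]
    ring
  have hMd' : ∀ i, (derivative M).eval (b i) = 0 := by
    intro i
    have h0 : (∏ i, (X - Polynomial.C (b i))).eval (b i) = 0 := by
      rw [eval_prod, Finset.prod_eq_zero (Finset.mem_univ i)]
      simp
    rw [hM, derivative_mul, pow_two (∏ i, (X - Polynomial.C (b i))), derivative_mul]
    simp only [eval_add, eval_mul, h0]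
    ring
  have hkey : ∀ (t : ZMod p) (G : (ZMod p)[X]), G ∈ mon p d → (G + Polynomial.C t * M) ∈ mon p d ∧
      chi C A b ψ (G + Polynomial.C t * M) = ψ (-C * t) * chi C A b ψ G := by
    intro t G hG
    rw [mem_mon] at hG ⊢
    obtain ⟨hG1, hG2⟩ := hG
    have hlt : (Polynomial.C t * M).degree < G.degree := by
      rw [degree_eq_natDegree hG1.ne_zero, hG2]
      refine lt_of_le_of_lt (degree_le_natDegree) ?_
      have : (Polynomial.C t * M).natDegree ≤ d - 1 := (natDegree_C_mul_le _ _).trans hMd.le
      exact_mod_cast lt_of_le_of_lt this (by omega)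
    have hm1 : (G + Polynomial.C t * M).Monic := hG1.add_of_left hlt
    have hm2 : (G + Polynomial.C t * M).natDegree = d := by
      rw [natDegree_add_eq_left_of_degree_lt hlt, hG2]
    refine ⟨⟨hm1, hm2⟩, ?_⟩
    have he : ∀ i, (G + Polynomial.C t * M).eval (b i) = G.eval (b i) := by
      intro i
      rw [eval_add, eval_mul, hMe, mul_zero, add_zero]
    have he' : ∀ i, (derivative (G + Polynomial.C t * M)).eval (b i) = (derivative G).eval (b i) := by
      intro i
      rw [derivative_add, derivative_C_mul, eval_add, eval_mul, hMd', mul_zero, add_zero]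
    have hn : (G + Polynomial.C t * M).nextCoeff = G.nextCoeff + t := by
      have hd0 : d ≠ 0 := by omega
      rw [nextCoeff_of_natDegree_pos (by omega), nextCoeff_of_natDegree_pos (by omega), hm2, hG2,
        coeff_add, coeff_C_mul]
      have : M.coeff (d - 1) = 1 := by rw [← hMd]; exact hMm
      rw [this, mul_one]
    unfold chi
    simp only [he]
    split_ifs with h
    · have : lam C A b (G + Polynomial.C t * M) = -C * t + lam C A b G := by
        unfold lam
        simp only [he, he', hn]
        ring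
      rw [this, AddChar.map_add_eq_mul]
    · rw [mul_zero]
  obtain ⟨u, hu⟩ : ∃ u, ψ u ≠ 1 := by
    by_contra hcon
    push Not at hcon
    apply hψ
    ext u
    rw [hcon u]
    rfl
  have hsum : ∀ t : ZMod p, cc C A b ψ d = ψ (-C * t) * cc C A b ψ d := by
    intro t
    unfold cc
    rw [Finset.mul_sum]
    symm
    refine Finset.sum_bij (fun G _ => G + Polynomial.C t * M) ?_ ?_ ?_ ?_
    · intro G hG
      exact (hkey t G hG).1
    · intro G _ H _ h
      exact add_right_cancel h
    · intro G hG
      refine ⟨G + Polynomial.C (-t) * M, (hkey (-t) G hG).1, ?_⟩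
      rw [Polynomial.C_neg]
      ring
    · intro G hG
      exact (hkey t G hG).2.symm
  have h1 := hsum (-(u / C))
  have h2 : -C * -(u / C) = u := by
    field_simp
  rw [h2] at h1
  have h3 : (1 - ψ u) * cc C A b ψ d = 0 := by linear_combination h1
  rcases mul_eq_zero.mp h3 with h4 | h4
  · exact absurd (sub_eq_zero.mp h4).symm hu
  · exact h4

end Pool.Agent.Weil
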