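import Mathlib

set_option autoImplicit false

/-! Weil bound for sums of an additive character of `ZMod p` over
`f x = C x + ∑ i, A i / (x - b i)`.  Definitions. -/

namespace Pool.Agent.Weil

open Polynomial

/-- the rational function `C x + ∑ i, A i / (x - b i)` -/
def fval {K : Type} [Field K] {r : ℕ} (C : K) (A b : Fin r → K) (x : K) : K :=
  C * x + ∑ i, A i / (x - b i)

/-- the same with parameters in `ZMod p` and the variable in `GaloisField p s` -/
noncomputable def fgal (p : ℕ) [Fact p.Prime] (s : ℕ) {r : ℕ} (C : ZMod p) (A b : Fin r → ZMod p)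
    (x : GaloisField p s) : GaloisField p s :=
  fval (algebraMap (ZMod p) (GaloisField p s) C)
    (fun i => algebraMap (ZMod p) (GaloisField p s) (A i))
    (fun i => algebraMap (ZMod p) (GaloisField p s) (b i)) x

/-- the points of `GaloisField p s` which are not poles -/
def reg (p : ℕ) [Fact p.Prime] (s : ℕ) {r : ℕ} (b : Fin r → ZMod p) : Set (GaloisField p s) :=
  {x | ∀ i, x ≠ algebraMap (ZMod p) (GaloisField p s) (b i)}

/-- the character sum over `GaloisField p s` -/
noncomputable def Ssum (p : ℕ) [Fact p.Prime] {r : ℕ} (C : ZMod p) (A b : Fin r → ZMod p)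
    (ψ : AddChar (ZMod p) ℂ) (s : ℕ) : ℂ :=
  ∑ᶠ x ∈ reg p s b, ψ (Algebra.trace (ZMod p) (GaloisField p s) (fgal p s C A b x))

end Pool.Agent.Weil
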