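import Pool.Agent.Weil.Chi

set_option autoImplicit false

/-! MODULE FLD (helper68): minimal polynomials over finite fields. -/

namespace Pool.Agent.Weil

open Polynomial

variable {p : ℕ} [Fact p.Prime] {s : ℕ}

theorem fld_frob (hs : s ≠ 0) (x : GaloisField p s) : x ^ p ^ s = x := by
  have := Fintype.ofFinite (GaloisField p s)
  have h := FiniteField.pow_card x
  rwa [Fintype.card_eq_nat_card, GaloisField.card p s hs] at h

theorem fld_int (x : GaloisField p s) : IsIntegral (ZMod p) x := Algebra.IsIntegral.isIntegral x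

theorem fld_monic (x : GaloisField p s) : (minpoly (ZMod p) x).Monic := minpoly.monic (fld_int x)

theorem fld_irr (x : GaloisField p s) : Irreducible (minpoly (ZMod p) x) :=
  minpoly.irreducible (fld_int x)

theorem fld_pos (x : GaloisField p s) : 0 < (minpoly (ZMod p) x).natDegree :=
  minpoly.natDegree_pos (fld_int x)

theorem fld_dvd (hs : s ≠ 0) (x : GaloisField p s) : (minpoly (ZMod p) x).natDegree ∣ s := by
  have h := minpoly.degree_dvd (K := ZMod p) (fld_int x)
  rwa [GaloisField.finrank p hs] at h

theorem fld_algMap (i : ℕ) (a : ZMod p) : (algebraMap (ZMod p) (GaloisField p s) a) ^ p ^ i =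
    algebraMap (ZMod p) (GaloisField p s) a := by
  rw [← map_pow, ZMod.pow_card_pow]

/-- the Frobenius conjugates of `x` -/
theorem fld_conj (x : GaloisField p s) (i : ℕ) : aeval (x ^ p ^ i) (minpoly (ZMod p) x) = 0 := by
  have h1 : (iterateFrobenius (GaloisField p s) p i) (aeval x (minpoly (ZMod p) x)) =
      aeval (x ^ p ^ i) (minpoly (ZMod p) x) := by
    rw [aeval_def, aeval_def, hom_eval₂, iterateFrobenius_def]
    congr 1
    exact Subsingleton.elim _ _
  rw [← h1, minpoly.aeval, map_zero]

theorem fld_dvd_pow (x : GaloisField p s) {j : ℕ} (h : x ^ p ^ j = x) :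
    (minpoly (ZMod p) x).natDegree ∣ j := by
  have h1 : minpoly (ZMod p) x ∣ X ^ (Nat.card (ZMod p)) ^ j - X := by
    apply minpoly.dvd
    rw [Nat.card_zmod]
    simp [h]
  exact (fld_irr x).natDegree_dvd_of_dvd_X_pow_card_pow_sub_X h1

theorem fld_inj {x y : GaloisField p s} (i : ℕ) (h : x ^ p ^ i = y ^ p ^ i) : x = y := by
  have := (iterateFrobenius (GaloisField p s) p i).injective
  apply this
  rw [iterateFrobenius_def, iterateFrobenius_def, h]

theorem fld_prod_min (x : GaloisField p s) :
    (minpoly (ZMod p) x).map (algebraMap (ZMod p) (GaloisField p s)) =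
      ∏ i ∈ Finset.range (minpoly (ZMod p) x).natDegree, (X - C (x ^ p ^ i)) := by
  have hinj : ∀ i j, i < j → j < (minpoly (ZMod p) x).natDegree → x ^ p ^ i ≠ x ^ p ^ j := by
    intro i j hij hj h
    have h1 : x ^ p ^ j = (x ^ p ^ (j - i)) ^ p ^ i := by
      rw [← pow_mul, ← pow_add, Nat.sub_add_cancel hij.le]
    rw [h1] at h
    have h2 := (fld_inj i h).symm
    have h3 := Nat.le_of_dvd (by omega) (fld_dvd_pow x h2)
    omega
  apply eq_of_monic_of_dvd_of_natDegree_le (monic_prod_of_monic _ _ fun i _ => monic_X_sub_C _)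
    ((fld_monic x).map _)
  · apply Finset.prod_dvd_of_coprime
    · intro i hi j hj hij
      have hi' := Finset.mem_range.mp hi
      have hj' := Finset.mem_range.mp hj
      apply isCoprime_X_sub_C_of_isUnit_sub
      apply IsUnit.mk0
      rw [sub_ne_zero]
      rcases lt_or_gt_of_ne hij with h | h
      · exact hinj i j h hj'
      · exact (hinj j i h hi').symm
    · intro i _
      rw [dvd_iff_isRoot, IsRoot.def, eval_map_algebraMap]
      exact fld_conj x i
  · rw [(fld_monic x).natDegree_map, natDegree_prod_of_monic _ _ fun i _ => monic_X_sub_C _]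
    simp only [natDegree_X_sub_C, Finset.sum_const, Finset.card_range, smul_eq_mul, mul_one, le_refl]

theorem fld_period (x : GaloisField p s) : x ^ p ^ (minpoly (ZMod p) x).natDegree = x := by
  have h := (Irreducible.natDegree_dvd_iff_dvd_X_pow_card_pow_sub_X (fld_irr x)
    (n := (minpoly (ZMod p) x).natDegree)).mp dvd_rfl
  rw [Nat.card_zmod] at h
  obtain ⟨q, hq⟩ := h
  have h1 := congrArg (aeval x) hq
  rw [map_mul, minpoly.aeval, zero_mul, map_sub, map_pow, aeval_X] at h1
  exact sub_eq_zero.mp h1

theorem fld_period_mul (x : GaloisField p s) (k : ℕ) :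
    x ^ p ^ ((minpoly (ZMod p) x).natDegree * k) = x := by
  induction k with
  | zero => simp
  | succ k ih => rw [mul_add, mul_one, pow_add, pow_mul, ih, fld_period]

theorem fld_prod (hs : s ≠ 0) (x : GaloisField p s) :
    ((minpoly (ZMod p) x) ^ (s / (minpoly (ZMod p) x).natDegree)).map
      (algebraMap (ZMod p) (GaloisField p s)) =
      ∏ i ∈ Finset.range s, (X - C (x ^ p ^ i)) := by
  obtain ⟨k, hk⟩ := fld_dvd hs x
  have h0 := fld_pos x
  have h1 : s / (minpoly (ZMod p) x).natDegree = k := by
    rw [Nat.div_eq_of_eq_mul_right h0 hk]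
  have h2 : ∀ k : ℕ, ∏ i ∈ Finset.range ((minpoly (ZMod p) x).natDegree * k), (X - C (x ^ p ^ i)) =
      (∏ i ∈ Finset.range (minpoly (ZMod p) x).natDegree, (X - C (x ^ p ^ i))) ^ k := by
    intro k
    induction k with
    | zero => simp
    | succ k ih =>
      rw [mul_add, mul_one, Finset.prod_range_add, ih, pow_succ]
      congr 1
      apply Finset.prod_congr rfl
      intro i _
      rw [pow_add, pow_mul, fld_period_mul]
  rw [h1, Polynomial.map_pow, fld_prod_min, ← h2, ← hk]

theorem fld_count (hs : s ≠ 0) (P : (ZMod p)[X]) (hP : Irreducible P) (hm : P.Monic)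
    (hd : P.natDegree ∣ s) : Set.ncard {x : GaloisField p s | minpoly (ZMod p) x = P} = P.natDegree := by
  have h1 := hP.natDegree_dvd_iff_dvd_X_pow_card_pow_sub_X.mp hd
  rw [Nat.card_zmod] at h1
  have h2 : (X ^ p ^ s - X : (ZMod p)[X]) ≠ 0 :=
    FiniteField.X_pow_card_pow_sub_X_ne_zero _ hs (Fact.out : p.Prime).one_lt
  have hsp : Splits ((X ^ p ^ s - X : (ZMod p)[X]).map (algebraMap (ZMod p) (GaloisField p s))) := by
    have := FiniteField.isSplittingField_of_nat_card_eq p s (K := GaloisField p s)
      (GaloisField.card p s hs)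
    exact this.splits
  have h3 : Splits (P.map (algebraMap (ZMod p) (GaloisField p s))) :=
    hsp.of_dvd (map_ne_zero h2) (Polynomial.map_dvd _ h1)
  have h4 : P.Separable := PerfectField.separable_of_irreducible hP
  have h5 := card_rootSet_eq_natDegree (K := GaloisField p s) h4 h3
  have h6 : {x : GaloisField p s | minpoly (ZMod p) x = P} = P.rootSet (GaloisField p s) := by
    ext x
    rw [Set.mem_ofPred_eq, mem_rootSet_of_ne hP.ne_zero]
    constructor
    · rintro rfl
      exact minpoly.aeval _ _
    · intro h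
      exact (minpoly.eq_of_irreducible_of_monic hP h hm).symm
  rw [h6, ← Nat.card_coe_set_eq, Nat.card_eq_fintype_card, h5]

variable {r : ℕ} (C : ZMod p) (A b : Fin r → ZMod p)

theorem fld_reg (x : GaloisField p s) : x ∈ reg p s b ↔ ∀ i, (minpoly (ZMod p) x).eval (b i) ≠ 0 := by
  constructor
  · intro h i hi
    apply h i
    have h1 : (X - Polynomial.C (b i)) ∣ minpoly (ZMod p) x := dvd_iff_isRoot.mpr hi
    have h2 : minpoly (ZMod p) x ∣ (X - Polynomial.C (b i)) :=
      (irreducible_X_sub_C _).dvd_symm (fld_irr x) h1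
    obtain ⟨q, hq⟩ := h2
    have h3 := congrArg (aeval x) hq
    rw [map_mul, minpoly.aeval, zero_mul, map_sub, aeval_X, aeval_C] at h3
    exact sub_eq_zero.mp h3
  · intro h i hi
    apply h i
    rw [hi, minpoly.eq_X_sub_C (GaloisField p s) (b i)]
    simp

theorem fld_trace (hs : s ≠ 0) (x : GaloisField p s) (hx : x ∈ reg p s b) :
    Algebra.trace (ZMod p) (GaloisField p s) (fgal p s C A b x) =
      lam C A b ((minpoly (ZMod p) x) ^ (s / (minpoly (ZMod p) x).natDegree)) := by
  obtain ⟨G, hG⟩ : ∃ G, G = (minpoly (ZMod p) x) ^ (s / (minpoly (ZMod p) x).natDegree) := ⟨_, rfl⟩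
  have hGm : G.Monic := by rw [hG]; exact (fld_monic x).pow _
  have hGp : G.map (algebraMap (ZMod p) (GaloisField p s)) =
      ∏ i ∈ Finset.range s, (X - Polynomial.C (x ^ p ^ i)) := by
    rw [hG]; exact fld_prod hs x
  rw [← hG]
  apply (algebraMap (ZMod p) (GaloisField p s)).injective
  rw [FiniteField.algebraMap_trace_eq_sum_pow, GaloisField.finrank p hs, Nat.card_zmod]
  have hconj : ∀ i, (fgal p s C A b x) ^ p ^ i = fgal p s C A b (x ^ p ^ i) := by
    intro i
    have h1 : ∀ y : GaloisField p s, y ^ p ^ i = iterateFrobenius (GaloisField p s) p i y := by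
      intro y
      rw [iterateFrobenius_def]
    unfold fgal fval
    rw [h1, map_add, map_mul, map_sum, ← h1, ← h1, fld_algMap]
    congr 1
    apply Finset.sum_congr rfl
    intro j _
    rw [map_div₀, map_sub, ← h1, ← h1, ← h1, fld_algMap, fld_algMap]
  rw [Finset.sum_congr rfl fun i _ => hconj i]
  have hne : ∀ i j, algebraMap (ZMod p) (GaloisField p s) (b i) ≠ x ^ p ^ j := by
    intro i j h
    have h1 := fld_algMap (p := p) (s := s) j (b i)
    rw [← h1] at h
    exact hx i (fld_inj j h).symm
  have hnext : algebraMap (ZMod p) (GaloisField p s) G.nextCoeff =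
      - ∑ i ∈ Finset.range s, x ^ p ^ i := by
    rw [← nextCoeff_map (algebraMap (ZMod p) (GaloisField p s)).injective, hGp,
      prod_X_sub_C_nextCoeff]
  have hlog : ∀ (c : GaloisField p s) (n : ℕ), (∀ j, c ≠ x ^ p ^ j) →
      (derivative (∏ i ∈ Finset.range n, (X - Polynomial.C (x ^ p ^ i)))).eval c /
        (∏ i ∈ Finset.range n, (X - Polynomial.C (x ^ p ^ i))).eval c =
        ∑ i ∈ Finset.range n, 1 / (c - x ^ p ^ i) := by
    intro c n hc
    induction n with
    | zero => simp
    | succ n ih =>
      rw [Finset.prod_range_succ, derivative_mul, Finset.sum_range_succ, ← ih, eval_add, eval_mul,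
        eval_mul, eval_mul]
      have h1 : (∏ i ∈ Finset.range n, (X - Polynomial.C (x ^ p ^ i))).eval c ≠ 0 := by
        rw [eval_prod, Finset.prod_ne_zero_iff]
        intro i _
        simpa [sub_ne_zero] using hc i
      have h2 : c - x ^ p ^ n ≠ 0 := sub_ne_zero.mpr (hc n)
      simp only [derivative_sub, derivative_X, derivative_C, sub_zero, eval_one, eval_sub, eval_X,
        eval_C, mul_one]
      field_simp
  have hev : ∀ i, algebraMap (ZMod p) (GaloisField p s)
      ((derivative G).eval (b i) / G.eval (b i)) =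
        ∑ j ∈ Finset.range s, 1 / (algebraMap (ZMod p) (GaloisField p s) (b i) - x ^ p ^ j) := by
    intro i
    rw [← hlog _ s (hne i), ← hGp, derivative_map, eval_map_algebraMap, eval_map_algebraMap,
      map_div₀, aeval_algebraMap_apply, aeval_algebraMap_apply]
    simp
  unfold lam
  rw [map_sub, map_mul, map_neg, hnext, map_sum]
  simp only [map_mul, hev]
  unfold fgal fval
  rw [Finset.sum_add_distrib, ← Finset.mul_sum, Finset.sum_comm]
  have h9 : ∀ i : Fin r, ∑ j ∈ Finset.range s, algebraMap (ZMod p) (GaloisField p s) (A i) /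
      (x ^ p ^ j - algebraMap (ZMod p) (GaloisField p s) (b i)) =
      - (algebraMap (ZMod p) (GaloisField p s) (A i) * ∑ j ∈ Finset.range s,
        1 / (algebraMap (ZMod p) (GaloisField p s) (b i) - x ^ p ^ j)) := by
    intro i
    rw [Finset.mul_sum, ← Finset.sum_neg_distrib]
    apply Finset.sum_congr rfl
    intro j _
    have h1 := sub_ne_zero.mpr (hne i j)
    have h2 := sub_ne_zero.mpr (hne i j).symm
    field_simp
    ring
  rw [Finset.sum_congr rfl fun i _ => h9 i, Finset.sum_neg_distrib]
  ring

end Pool.Agent.Weil
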