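import Pool.Agent.Weil.Main

set_option autoImplicit false

/-! MODULE INV (helper68): the case without pole at infinity, and the two-pole sums. -/

namespace Pool.Agent.Weil

variable {p : ℕ} [Fact p.Prime] {r : ℕ}

open Classical in
theorem inv_bound (A b : Fin (r + 1) → ZMod p) (ψ : AddChar (ZMod p) ℂ) (hψ : ψ ≠ 1)
    (hb : ∀ i : Fin r, b i.succ ≠ b 0) (hA : A 0 ≠ 0) :
    ‖∑ x : ZMod p with ∀ i, x ≠ b i, ψ (fval 0 A b x)‖ ≤ 2 * r * Real.sqrt p + 1 := by
  have hd : ∀ i : Fin r, b 0 - b i.succ ≠ 0 := fun i => sub_ne_zero.mpr (hb i).symm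
  obtain ⟨b', hb'⟩ : ∃ b' : Fin r → ZMod p, ∀ i, b' i = -(b 0 - b i.succ)⁻¹ := ⟨_, fun i => rfl⟩
  obtain ⟨A', hA'⟩ : ∃ A' : Fin r → ZMod p, ∀ i, A' i = -(A i.succ / (b 0 - b i.succ) ^ 2) :=
    ⟨_, fun i => rfl⟩
  have hb0 : ∀ i, (0 : ZMod p) ≠ b' i := by
    intro i
    rw [hb']
    exact (neg_ne_zero.mpr (inv_ne_zero (hd i))).symm
  have h1 : ∑ x : ZMod p with ∀ i, x ≠ b i, ψ (fval 0 A b x) =
      ∑ t : ZMod p with t ≠ 0 ∧ ∀ i, t ≠ b' i,
        ψ (∑ i : Fin r, A i.succ / (b 0 - b i.succ)) * ψ (fval (A 0) A' b' t) := by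
    symm
    refine Finset.sum_bij (fun t _ => b 0 + t⁻¹) ?_ ?_ ?_ ?_
    · intro t ht
      obtain ⟨_, ht0, ht1⟩ := Finset.mem_filter.mp ht
      rw [Finset.mem_filter]
      refine ⟨Finset.mem_univ _, ?_⟩
      intro i
      refine Fin.cases ?_ ?_ i
      · intro h
        exact inv_ne_zero ht0 (by linear_combination h)
      · intro j h
        apply ht1 j
        rw [hb']
        have h2 : t⁻¹ = -(b 0 - b j.succ) := by linear_combination h
        rw [← inv_inv t, h2, ← neg_inv]
    · intro t ht t' ht' h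
      exact inv_injective (add_left_cancel h)
    · intro x hx
      have hx' := (Finset.mem_filter.mp hx).2
      refine ⟨(x - b 0)⁻¹, ?_, ?_⟩
      · rw [Finset.mem_filter]
        refine ⟨Finset.mem_univ _, inv_ne_zero (sub_ne_zero.mpr (hx' 0)), ?_⟩
        intro i h
        apply hx' i.succ
        rw [hb', neg_inv] at h
        have := inv_injective h
        linear_combination this
      · rw [inv_inv]
        ring
    · intro t ht
      obtain ⟨_, ht0, ht1⟩ := Finset.mem_filter.mp ht
      rw [← AddChar.map_add_eq_mul]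
      congr 1
      unfold fval
      rw [Fin.sum_univ_succ]
      have h3 : ∀ i : Fin r, A i.succ / (b 0 + t⁻¹ - b i.succ) =
          A i.succ / (b 0 - b i.succ) + A' i / (t - b' i) := by
        intro i
        have h4 : t - b' i ≠ 0 := sub_ne_zero.mpr (ht1 i)
        rw [hb'] at h4
        rw [hA', hb']
        have h5 := hd i
        have h6 : (b 0 - b i.succ) * t + 1 ≠ 0 := by
          intro h
          apply h4
          field_simp
          linear_combination h
        have h7 : b 0 + t⁻¹ - b i.succ = ((b 0 - b i.succ) * t + 1) / t := by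
          field_simp
          ring
        have h8 : t - -(b 0 - b i.succ)⁻¹ = ((b 0 - b i.succ) * t + 1) / (b 0 - b i.succ) := by
          field_simp
          ring
        rw [h7, h8]
        field_simp
        ring
      rw [Finset.sum_congr rfl fun i _ => h3 i, Finset.sum_add_distrib]
      have h9 : A 0 / (b 0 + t⁻¹ - b 0) = A 0 * t := by
        rw [add_sub_cancel_left, div_inv_eq_mul]
      rw [h9]
      ring
  rw [h1, ← Finset.mul_sum, norm_mul, AddChar.norm_apply, one_mul]
  have h2 : ∑ t : ZMod p with ∀ i, t ≠ b' i, ψ (fval (A 0) A' b' t) =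
      ψ (fval (A 0) A' b' 0) + ∑ t : ZMod p with t ≠ 0 ∧ ∀ i, t ≠ b' i,
        ψ (fval (A 0) A' b' t) := by
    rw [← Finset.add_sum_erase _ _ (a := (0 : ZMod p))
      (Finset.mem_filter.mpr ⟨Finset.mem_univ _, hb0⟩)]
    congr 1
    apply Finset.sum_congr _ fun _ _ => rfl
    ext t
    simp only [Finset.mem_erase, Finset.mem_filter, Finset.mem_univ, true_and]
  have h3 := main_bound (A 0) A' b' ψ hA hψ
  have h4 : ∑ t : ZMod p with t ≠ 0 ∧ ∀ i, t ≠ b' i, ψ (fval (A 0) A' b' t) =
      (∑ t : ZMod p with ∀ i, t ≠ b' i, ψ (fval (A 0) A' b' t)) - ψ (fval (A 0) A' b' 0) := by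
    rw [h2]
    ring
  rw [h4]
  refine (norm_sub_le _ _).trans ?_
  rw [AddChar.norm_apply]
  exact add_le_add h3 le_rfl

open Classical in
/-- Weil's bound for two simple poles and an arbitrary linear term. -/
theorem two_bound (A₁ A₂ B C : ZMod p) (ψ : AddChar (ZMod p) ℂ) (hψ : ψ ≠ 1)
    (h : ¬ (C = 0 ∧ A₁ + A₂ = 0 ∧ (B = 0 ∨ A₁ = 0))) :
    ‖∑ x : ZMod p with x ≠ 0 ∧ x + B ≠ 0, ψ (A₁ / x + A₂ / (x + B) + C * x)‖ ≤
      4 * Real.sqrt p := by
  have hp1 : (1 : ℝ) ≤ Real.sqrt p := by
    rw [Real.one_le_sqrt]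
    exact_mod_cast (Fact.out : p.Prime).one_lt.le
  have hset : (Finset.univ.filter fun x : ZMod p => x ≠ 0 ∧ x + B ≠ 0) =
      Finset.univ.filter fun x : ZMod p => ∀ i, x ≠ ![0, -B] i := by
    ext x
    simp only [Finset.mem_filter, Finset.mem_univ, true_and, Fin.forall_fin_two,
      Matrix.cons_val_zero, Matrix.cons_val_one]
    constructor
    · rintro ⟨h1, h2⟩
      exact ⟨h1, fun h3 => h2 (by rw [h3]; ring)⟩
    · rintro ⟨h1, h2⟩
      exact ⟨h1, fun h3 => h2 (by linear_combination h3)⟩
  have hval : ∀ x : ZMod p, A₁ / x + A₂ / (x + B) + C * x =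
      fval C ![A₁, A₂] ![0, -B] x := by
    intro x
    unfold fval
    rw [Fin.sum_univ_two]
    simp only [Matrix.cons_val_zero, Matrix.cons_val_one, sub_zero, sub_neg_eq_add]
    ring
  by_cases hC : C = 0
  · subst hC
    by_cases hB : B = 0
    · -- one pole
      subst hB
      have hA : A₁ + A₂ ≠ 0 := fun h1 => h ⟨rfl, h1, Or.inl rfl⟩
      have h1 := inv_bound (r := 0) ![A₁ + A₂] ![0] ψ hψ (fun i => i.elim0) hA
      have h2 : ∑ x : ZMod p with x ≠ 0 ∧ x + 0 ≠ 0, ψ (A₁ / x + A₂ / (x + 0) + 0 * x) =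
          ∑ x : ZMod p with ∀ i, x ≠ ![(0 : ZMod p)] i, ψ (fval 0 ![A₁ + A₂] ![0] x) := by
        apply Finset.sum_congr
        · ext x
          simp
        · intro x _
          congr 1
          unfold fval
          simp only [Finset.univ_unique, Fin.default_eq_zero, Finset.sum_singleton,
            Matrix.cons_val_zero, sub_zero, add_zero]
          ring
      rw [h2]
      refine h1.trans ?_
      norm_num
      linarith
    · by_cases hA : A₁ = 0
      · have hA2 : A₂ ≠ 0 := by
          intro h1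
          exact h ⟨rfl, by rw [hA, h1, add_zero], Or.inr hA⟩
        have h1 := inv_bound (r := 1) ![A₂, A₁] ![-B, 0] ψ hψ
          (fun i => by
            simp only [Matrix.cons_val_zero]
            rw [show i = 0 from Subsingleton.elim _ _]
            intro h
            have h' : (0 : ZMod p) = -B := by simpa using h
            exact hB (by linear_combination h')) hA2
        have h2 : ∑ x : ZMod p with x ≠ 0 ∧ x + B ≠ 0, ψ (A₁ / x + A₂ / (x + B) + 0 * x) =
            ∑ x : ZMod p with ∀ i, x ≠ ![-B, 0] i, ψ (fval 0 ![A₂, A₁] ![-B, 0] x) := by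
          apply Finset.sum_congr
          · rw [hset]
            ext x
            simp only [Finset.mem_filter, Finset.mem_univ, true_and, Fin.forall_fin_two,
              Matrix.cons_val_zero, Matrix.cons_val_one]
            exact and_comm
          · intro x _
            rw [hval]
            congr 1
            unfold fval
            rw [Fin.sum_univ_two, Fin.sum_univ_two]
            simp only [Matrix.cons_val_zero, Matrix.cons_val_one]
            ring
        rw [h2]
        refine h1.trans ?_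
        push_cast
        linarith
      · have h1 := inv_bound (r := 1) ![A₁, A₂] ![0, -B] ψ hψ
          (fun i => by
            simp only [Matrix.cons_val_zero]
            rw [show i = 0 from Subsingleton.elim _ _]
            simpa using hB) hA
        rw [hset, Finset.sum_congr rfl fun x _ => by rw [hval x]]
        refine h1.trans ?_
        push_cast
        linarith
  · have h1 := main_bound C ![A₁, A₂] ![0, -B] ψ hC hψ
    rw [hset, Finset.sum_congr rfl fun x _ => by rw [hval x]]
    refine h1.trans ?_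
    push_cast
    linarith

end Pool.Agent.Weil
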