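import Pool.Agent.Weil.Defs

set_option autoImplicit false

/-! MODULE ROOT (helper2): from Newton's identity and the bound for even degrees to degree 1. -/

namespace Pool.Agent.Weil

open Finset

theorem Root_abs_le {P z : ℝ} (hP : 0 < P) (C : ℝ)
    (h : ∀ t : ℕ, 1 ≤ t → z ^ t ≤ C * P ^ t) : z ≤ P := by
  by_contra hcon
  push Not at hcon
  have h1 : 1 < z / P := (one_lt_div hP).2 hcon
  obtain ⟨n, hn⟩ := pow_unbounded_of_one_lt C h1
  have h2 : (z / P) ^ n ≤ (z / P) ^ (n + 1) := pow_le_pow_right₀ h1.le (Nat.le_succ n)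
  have h3 := h (n + 1) (by omega)
  have h4 : (z / P) ^ (n + 1) ≤ C := by
    rw [div_pow, div_le_iff₀ (by positivity)]
    exact h3
  linarith

/-- Separation of the largest terms by interpolation. -/
theorem Root_key {ι : Type} [Fintype ι] (z : ι → ℂ) (P B : ℝ) (hP : 0 < P)
    (h : ∀ t : ℕ, 1 ≤ t → ‖∑ i, z i ^ t‖ ≤ B * P ^ t) (i0 : ι) : ‖z i0‖ ≤ P := by
  classical
  set Z : Finset ℂ := univ.image z with hZ
  have hmem : ∀ i, z i ∈ Z := fun i => mem_image_of_mem z (mem_univ i)
  set g : Polynomial ℂ := Lagrange.basis Z id (z i0) with hg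
  have hg1 : g.eval (z i0) = 1 :=
    Lagrange.eval_basis_self (s := Z) (v := id) (fun _ _ _ _ hxy => hxy) (hmem i0)
  have hg0 : ∀ i, z i ≠ z i0 → g.eval (z i) = 0 := fun i hi =>
    Lagrange.eval_basis_of_ne (s := Z) (v := id) (i := z i0) (j := z i) (Ne.symm hi) (hmem i)
  refine Root_abs_le hP (∑ j ∈ range (g.natDegree + 1), ‖g.coeff j‖ * (B * P ^ j)) fun t ht => ?_
  have h1 : ∑ j ∈ range (g.natDegree + 1), g.coeff j * ∑ i, z i ^ (t + j) =
      ((univ.filter fun i => z i = z i0).card : ℂ) * z i0 ^ t := by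
    calc _ = ∑ i, z i ^ t * g.eval (z i) := by
          simp only [Finset.mul_sum]
          rw [Finset.sum_comm]
          refine Finset.sum_congr rfl fun i _ => ?_
          rw [Polynomial.eval_eq_sum_range, Finset.mul_sum]
          exact Finset.sum_congr rfl fun j _ => by rw [pow_add]; ring
      _ = ∑ i, if z i = z i0 then z i0 ^ t else 0 := by
          refine Finset.sum_congr rfl fun i _ => ?_
          split_ifs with hi
          · rw [hi, hg1, mul_one]
          · rw [hg0 i hi, mul_zero]
      _ = _ := by rw [← Finset.sum_filter, Finset.sum_const, nsmul_eq_mul]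
  have hcard : (1 : ℝ) ≤ (univ.filter fun i => z i = z i0).card := by
    have : 0 < (univ.filter fun i => z i = z i0).card :=
      Finset.card_pos.2 ⟨i0, by simp⟩
    exact_mod_cast this
  have h2 : ‖z i0‖ ^ t ≤ ‖((univ.filter fun i => z i = z i0).card : ℂ) * z i0 ^ t‖ := by
    rw [norm_mul, norm_pow, Complex.norm_natCast]
    nlinarith [pow_nonneg (norm_nonneg (z i0)) t]
  refine h2.trans ?_
  rw [← h1, Finset.sum_mul]
  refine (norm_sum_le _ _).trans (Finset.sum_le_sum fun j _ => ?_)
  rw [norm_mul, mul_assoc]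
  refine mul_le_mul_of_nonneg_left ?_ (norm_nonneg _)
  refine (h (t + j) (by omega)).trans (le_of_eq ?_)
  rw [pow_add]; ring

/-- The inverse roots: a finite family with the given power sums. -/
theorem Root_exists (D : ℕ) (c S : ℕ → ℂ) (h0 : c 0 = 1) (hD : ∀ d, D < d → c d = 0)
    (hN : ∀ d : ℕ, 1 ≤ d → (d : ℂ) * c d = ∑ s ∈ Finset.Icc 1 d, S s * c (d - s)) :
    ∃ w : Fin D → ℂ, ∀ n, 1 ≤ n → S n = - ∑ i, w i ^ n := by
  classical
  set W : Polynomial ℂ := ∑ j ∈ range (D + 1), Polynomial.monomial (D - j) (c j) with hW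
  have hcoef : ∀ j, j ≤ D → W.coeff (D - j) = c j := by
    intro j hj
    rw [hW, Polynomial.finsetSum_coeff]
    rw [Finset.sum_eq_single_of_mem j (mem_range.2 (by omega))]
    · rw [Polynomial.coeff_monomial, if_pos rfl]
    · intro i hi hij
      rw [Polynomial.coeff_monomial, if_neg]
      have := mem_range.1 hi
      omega
  have hle : W.natDegree ≤ D := by
    rw [hW]
    refine Polynomial.natDegree_sum_le_of_forall_le _ _ fun j _ => ?_
    exact (Polynomial.natDegree_monomial_le _).trans (Nat.sub_le _ _)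
  have hD1 : W.coeff D = 1 := by
    have := hcoef 0 (Nat.zero_le _)
    rwa [Nat.sub_zero, h0] at this
  have hnat : W.natDegree = D :=
    le_antisymm hle (Polynomial.le_natDegree_of_ne_zero (by rw [hD1]; exact one_ne_zero))
  have hlead : W.leadingCoeff = 1 := by
    rw [Polynomial.leadingCoeff, hnat, hD1]
  have hcard : Multiset.card W.roots = W.natDegree :=
    (Polynomial.splits_iff_card_roots.1 (IsAlgClosed.splits W))
  -- enumerate the roots
  set l := W.roots.toList with hl
  have hlen : l.length = D := by rw [hl, Multiset.length_toList, hcard, hnat]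
  set w : Fin D → ℂ := fun i => l.get (i.cast hlen.symm) with hw
  have hmap : (univ : Finset (Fin D)).val.map w = W.roots := by
    have h1 : (univ : Finset (Fin D)).val.map w = (List.ofFn w : Multiset ℂ) := by
      rw [List.ofFn_eq_map, ← Multiset.map_coe]
      rfl
    rw [h1]
    have h2 : List.ofFn w = l := by
      apply List.ext_get
      · rw [List.length_ofFn, hlen]
      · intro n h1 h2
        simp [hw]
    rw [h2, hl, Multiset.coe_toList]
  -- elementary symmetric functions
  have hesymm : ∀ k, k ≤ D → MvPolynomial.aeval w (MvPolynomial.esymm (Fin D) ℂ k) =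
      (-1) ^ k * c k := by
    intro k hk
    rw [MvPolynomial.aeval_esymm_eq_multiset_esymm, hmap]
    have h1 := Polynomial.coeff_eq_esymm_roots_of_card hcard (k := D - k) (by rw [hnat]; omega)
    rw [hcoef k hk, hlead, hnat, Nat.sub_sub_self hk, one_mul] at h1
    rw [h1, ← mul_assoc, ← mul_pow]
    norm_num
  have hesymm' : ∀ k, MvPolynomial.aeval w (MvPolynomial.esymm (Fin D) ℂ k) =
      (-1) ^ k * c k := by
    intro k
    by_cases hk : k ≤ D
    · exact hesymm k hk
    · push Not at hk
      rw [hD k hk, mul_zero, MvPolynomial.aeval_esymm_eq_multiset_esymm, Multiset.esymm,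
        Multiset.powersetCard_eq_empty _ (by rw [hmap, hcard, hnat]; exact hk)]
      simp
  have hpsum : ∀ k, MvPolynomial.aeval w (MvPolynomial.psum (Fin D) ℂ k) = ∑ i, w i ^ k := by
    intro k
    rw [MvPolynomial.psum, map_sum]
    exact Finset.sum_congr rfl fun i _ => by rw [map_pow, MvPolynomial.aeval_X]
  -- Newton's identities for the roots
  have hnewton : ∀ d : ℕ, 1 ≤ d →
      (d : ℂ) * c d = ∑ s ∈ Finset.Icc 1 d, (- ∑ i, w i ^ s) * c (d - s) := by
    intro d hd
    have h1 := congrArg (MvPolynomial.aeval w) (MvPolynomial.mul_esymm_eq_sum (Fin D) ℂ d)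
    rw [map_mul, map_mul, map_sum, map_natCast, hesymm'] at h1
    have h2 : ∑ a ∈ antidiagonal d with a.1 < d, MvPolynomial.aeval w
        ((-1) ^ a.1 * MvPolynomial.esymm (Fin D) ℂ a.1 * MvPolynomial.psum (Fin D) ℂ a.2) =
        ∑ s ∈ Finset.Icc 1 d, c (d - s) * ∑ i, w i ^ s := by
      refine Finset.sum_bij' (fun a _ => a.2) (fun s _ => (d - s, s)) ?_ ?_ ?_ ?_ ?_
      · intro a ha
        rw [mem_filter, Finset.HasAntidiagonal.mem_antidiagonal] at ha
        rw [Finset.mem_Icc]; omega
      · intro s hs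
        rw [Finset.mem_Icc] at hs
        rw [mem_filter, Finset.HasAntidiagonal.mem_antidiagonal]
        constructor
        · show d - s + s = d
          omega
        · show d - s < d
          omega
      · intro a ha
        rw [mem_filter, Finset.HasAntidiagonal.mem_antidiagonal] at ha
        ext
        · show d - a.2 = a.1
          omega
        · rfl
      · intro s hs; rfl
      · intro a ha
        rw [mem_filter, Finset.HasAntidiagonal.mem_antidiagonal] at ha
        have e : d - a.2 = a.1 := by omega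
        rw [map_mul, map_mul, map_pow, map_neg, map_one, hesymm', hpsum, e, ← mul_assoc,
          ← mul_pow]
        norm_num
    rw [h2] at h1
    have h3 : (-1 : ℂ) ^ d * (-1) ^ d = 1 := by rw [← mul_pow]; norm_num
    have h4 : (d : ℂ) * c d = (-1) ^ d * ((d : ℂ) * ((-1) ^ d * c d)) := by
      calc (d : ℂ) * c d = ((-1) ^ d * (-1) ^ d) * ((d : ℂ) * c d) := by rw [h3, one_mul]
        _ = _ := by ring
    rw [h4, h1, map_pow, map_neg, map_one, pow_succ, ← mul_assoc, ← mul_assoc, h3, one_mul,
      Finset.mul_sum]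
    exact Finset.sum_congr rfl fun s _ => by ring
  refine ⟨w, fun n => ?_⟩
  induction n using Nat.strong_induction_on with
  | _ n ih =>
    intro hn
    have h1 := hN n hn
    have h2 := hnewton n hn
    rw [h1] at h2
    have hIcc : Finset.Icc 1 n = insert n (Finset.Icc 1 (n - 1)) := by
      ext x; simp only [Finset.mem_Icc, Finset.mem_insert]; omega
    have hnot : n ∉ Finset.Icc 1 (n - 1) := by rw [Finset.mem_Icc]; omega
    rw [hIcc, Finset.sum_insert hnot, Finset.sum_insert hnot, Nat.sub_self, h0, mul_one,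
      mul_one] at h2
    have h3 : ∑ s ∈ Finset.Icc 1 (n - 1), S s * c (n - s) =
        ∑ s ∈ Finset.Icc 1 (n - 1), (- ∑ i, w i ^ s) * c (n - s) := by
      refine Finset.sum_congr rfl fun s hs => ?_
      rw [Finset.mem_Icc] at hs
      rw [ih s (by omega) hs.1]
    rw [h3] at h2
    exact add_right_cancel h2

/-- `∑ c_d T^d` is a polynomial of degree `≤ D`, `S_s` = minus the power sums of its inverse
roots; if `S_(2s) = O(P^s)` then `|S_1| ≤ D sqrt P`. -/
theorem root_bound (D : ℕ) (c S : ℕ → ℂ) (h0 : c 0 = 1) (hD : ∀ d, D < d → c d = 0)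
    (hN : ∀ d : ℕ, 1 ≤ d → (d : ℂ) * c d = ∑ s ∈ Finset.Icc 1 d, S s * c (d - s))
    (P B : ℝ) (hP : 0 < P) (hB : ∀ s : ℕ, 1 ≤ s → ‖S (2 * s)‖ ≤ B * P ^ s) :
    ‖S 1‖ ≤ D * Real.sqrt P := by
  obtain ⟨w, hw⟩ := Root_exists D c S h0 hD hN
  have h1 : ∀ i, ‖w i‖ ≤ Real.sqrt P := by
    intro i
    have h2 := Root_key (fun i => w i ^ 2) P B hP (fun t ht => by
      have h3 := hB t ht
      rw [hw (2 * t) (by omega), norm_neg] at h3
      simpa only [← pow_mul] using h3) i
    rw [norm_pow] at h2
    exact Real.le_sqrt_of_sq_le h2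
  rw [hw 1 le_rfl, norm_neg]
  refine (norm_sum_le _ _).trans ?_
  calc ∑ i, ‖w i ^ 1‖ ≤ ∑ _i : Fin D, Real.sqrt P :=
        Finset.sum_le_sum fun i _ => by rw [pow_one]; exact h1 i
    _ = D * Real.sqrt P := by rw [Finset.sum_const, card_univ, Fintype.card_fin, nsmul_eq_mul]

end Pool.Agent.Weil
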