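import Pool.Agent.Weil.Defs

set_option autoImplicit false

/-! MODULE STEP (helper2): Stepanov's method on the line. -/

namespace Pool.Agent.Weil

open Polynomial

section gen

variable {K : Type} [Field K] {r : ℕ}

/-- the denominator -/
noncomputable def StepDen (b : Fin r → K) : K[X] := ∏ i, (X - C (b i))

/-- the numerator -/
noncomputable def StepNum (c : K) (A b : Fin r → K) : K[X] :=
  C c * X * StepDen b + ∑ i, C (A i) * ∏ j ∈ Finset.univ.erase i, (X - C (b j))

theorem StepDen_monic (b : Fin r → K) : (StepDen b).Monic :=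
  monic_prod_of_monic _ _ fun i _ => monic_X_sub_C _

theorem StepDen_natDegree (b : Fin r → K) : (StepDen b).natDegree = r := by
  unfold StepDen
  rw [natDegree_prod_of_monic _ _ fun i _ => monic_X_sub_C _]
  simp

theorem StepDen_eval (b : Fin r → K) (x : K) (hx : ∀ i, x ≠ b i) : (StepDen b).eval x ≠ 0 := by
  unfold StepDen
  rw [eval_prod]
  refine Finset.prod_ne_zero_iff.2 fun i _ => ?_
  rw [eval_sub, eval_X, eval_C]
  exact sub_ne_zero.2 (hx i)

theorem StepNum_eval (c : K) (A b : Fin r → K) (x : K) (hx : ∀ i, x ≠ b i) :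
    (StepNum c A b).eval x = fval c A b x * (StepDen b).eval x := by
  unfold StepNum fval
  rw [eval_add, eval_mul, eval_mul, eval_C, eval_X, eval_finsetSum, add_mul, Finset.sum_mul]
  congr 1
  refine Finset.sum_congr rfl fun i _ => ?_
  rw [eval_mul, eval_C]
  unfold StepDen
  rw [← Finset.mul_prod_erase Finset.univ (fun j => X - C (b j)) (Finset.mem_univ i), eval_mul,
    eval_sub, eval_X, eval_C, ← mul_assoc, div_mul_cancel₀ _ (sub_ne_zero.2 (hx i))]

theorem StepNum_natDegree_le (c : K) (A b : Fin r → K) : (StepNum c A b).natDegree ≤ r + 1 := by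
  unfold StepNum
  refine (natDegree_add_le _ _).trans (max_le ?_ ?_)
  · refine natDegree_mul_le.trans ?_
    rw [StepDen_natDegree]
    have h1 : (C c * X : K[X]).natDegree ≤ 1 := (natDegree_C_mul_le _ _).trans natDegree_X_le
    omega
  · refine natDegree_sum_le_of_forall_le _ _ fun i _ => ?_
    refine (natDegree_C_mul_le _ _).trans ?_
    rw [natDegree_prod_of_monic _ _ fun j _ => monic_X_sub_C _]
    simp only [natDegree_X_sub_C, Finset.sum_const, smul_eq_mul, mul_one]
    refine (Finset.card_le_univ _).trans ?_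
    rw [Fintype.card_fin]
    omega

theorem StepNum_coeff (c : K) (A b : Fin r → K) : (StepNum c A b).coeff (r + 1) = c := by
  unfold StepNum
  rw [coeff_add, mul_assoc, coeff_C_mul, coeff_X_mul]
  have h1 : (StepDen b).coeff r = 1 := by
    have := (StepDen_monic b).coeff_natDegree
    rwa [StepDen_natDegree] at this
  have h2 : (∑ i, C (A i) * ∏ j ∈ Finset.univ.erase i, (X - C (b j))).coeff (r + 1) = 0 := by
    apply coeff_eq_zero_of_natDegree_lt
    refine lt_of_le_of_lt (b := r) ?_ (Nat.lt_succ_self r)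
    refine natDegree_sum_le_of_forall_le _ _ fun i _ => ?_
    refine (natDegree_C_mul_le _ _).trans ?_
    rw [natDegree_prod_of_monic _ _ fun j _ => monic_X_sub_C _]
    simp only [natDegree_X_sub_C, Finset.sum_const, smul_eq_mul, mul_one]
    refine (Finset.card_le_univ _).trans ?_
    rw [Fintype.card_fin]
  rw [h1, h2, mul_one, add_zero]

theorem StepNum_natDegree (c : K) (hc : c ≠ 0) (A b : Fin r → K) :
    (StepNum c A b).natDegree = r + 1 :=
  le_antisymm (StepNum_natDegree_le c A b)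
    (le_natDegree_of_ne_zero (by rw [StepNum_coeff]; exact hc))

variable (p s : ℕ)

/-- the numerator of `f + f^p + ... + f^(p^(s-1))` -/
noncomputable def StepG (c : K) (A b : Fin r → K) : K[X] :=
  ∑ k ∈ Finset.range s, StepNum c A b ^ p ^ k * StepDen b ^ (p ^ (s - 1) - p ^ k)

/-- the numerator of `u - (f + f^p + ... + f^(p^(s-1)))` -/
noncomputable def StepH (u c : K) (A b : Fin r → K) : K[X] :=
  C u * StepDen b ^ p ^ (s - 1) - StepG p s c A b

variable {p s}

theorem StepG_term (hp : 2 ≤ p) (c : K) (A b : Fin r → K) (k : ℕ) (hk : k < s) :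
    (StepNum c A b ^ p ^ k * StepDen b ^ (p ^ (s - 1) - p ^ k)).natDegree ≤
      r * p ^ (s - 1) + p ^ k := by
  refine natDegree_mul_le.trans ?_
  have h1 : (StepNum c A b ^ p ^ k).natDegree ≤ p ^ k * (r + 1) :=
    natDegree_pow_le.trans (Nat.mul_le_mul_left _ (StepNum_natDegree_le c A b))
  have h2 : (StepDen b ^ (p ^ (s - 1) - p ^ k)).natDegree ≤ (p ^ (s - 1) - p ^ k) * r :=
    natDegree_pow_le.trans (Nat.mul_le_mul_left _ (StepDen_natDegree b).le)
  have h3 : p ^ k ≤ p ^ (s - 1) := Nat.pow_le_pow_right (by omega) (by omega)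
  have h4 : p ^ k * (r + 1) + (p ^ (s - 1) - p ^ k) * r = r * p ^ (s - 1) + p ^ k := by
    obtain ⟨m, hm⟩ := Nat.exists_eq_add_of_le h3
    rw [hm, Nat.add_sub_cancel_left]
    ring
  omega

theorem StepG_natDegree_le (hp : 2 ≤ p) (c : K) (A b : Fin r → K) :
    (StepG p s c A b).natDegree ≤ (r + 1) * p ^ (s - 1) := by
  unfold StepG
  refine natDegree_sum_le_of_forall_le _ _ fun k hk => ?_
  rw [Finset.mem_range] at hk
  refine (StepG_term hp c A b k hk).trans ?_
  have h3 : p ^ k ≤ p ^ (s - 1) := Nat.pow_le_pow_right (by omega) (by omega)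
  nlinarith

theorem StepH_natDegree (hp : 2 ≤ p) (hs : 1 ≤ s) (u c : K) (hc : c ≠ 0) (A b : Fin r → K) :
    (StepH p s u c A b).natDegree = (r + 1) * p ^ (s - 1) := by
  have hE : 0 < p ^ (s - 1) := Nat.pow_pos (by omega)
  have h1 : StepH p s u c A b = (C u * StepDen b ^ p ^ (s - 1) -
      ∑ k ∈ Finset.range (s - 1),
        StepNum c A b ^ p ^ k * StepDen b ^ (p ^ (s - 1) - p ^ k)) +
        - StepNum c A b ^ p ^ (s - 1) := by
    unfold StepH StepG
    obtain ⟨m, rfl⟩ : ∃ m, s = m + 1 := ⟨s - 1, by omega⟩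
    rw [Nat.add_sub_cancel, Finset.sum_range_succ, Nat.sub_self, pow_zero, mul_one]
    ring
  have h2 : (- StepNum c A b ^ p ^ (s - 1)).natDegree = (r + 1) * p ^ (s - 1) := by
    rw [natDegree_neg, natDegree_pow, StepNum_natDegree c hc A b, mul_comm]
  have h3 : (C u * StepDen b ^ p ^ (s - 1) - ∑ k ∈ Finset.range (s - 1),
        StepNum c A b ^ p ^ k * StepDen b ^ (p ^ (s - 1) - p ^ k)).natDegree <
        (r + 1) * p ^ (s - 1) := by
    refine lt_of_le_of_lt (natDegree_sub_le _ _) (max_lt ?_ ?_)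
    · refine lt_of_le_of_lt (natDegree_C_mul_le _ _) ?_
      rw [natDegree_pow, StepDen_natDegree]
      nlinarith
    · refine lt_of_le_of_lt (natDegree_sum_le_of_forall_le (n := (r + 1) * p ^ (s - 1) - 1) _ _
        fun k hk => ?_) ?_
      · rw [Finset.mem_range] at hk
        refine (StepG_term hp c A b k (by omega)).trans ?_
        have h4 : p ^ k < p ^ (s - 1) := Nat.pow_lt_pow_right (by omega) hk
        have h5 : (r + 1) * p ^ (s - 1) = r * p ^ (s - 1) + p ^ (s - 1) := by ring
        omega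
      · have h5 : 0 < (r + 1) * p ^ (s - 1) := by positivity
        omega
  rw [h1, natDegree_add_eq_right_of_natDegree_lt (by rw [h2]; exact h3), h2]

theorem StepG_eval (hp : 2 ≤ p) (c : K) (A b : Fin r → K) (x : K) (hx : ∀ i, x ≠ b i) :
    (StepG p s c A b).eval x =
      (StepDen b).eval x ^ p ^ (s - 1) * ∑ k ∈ Finset.range s, fval c A b x ^ p ^ k := by
  unfold StepG
  rw [eval_finsetSum, Finset.mul_sum]
  refine Finset.sum_congr rfl fun k hk => ?_
  rw [Finset.mem_range] at hk
  have h3 : p ^ k ≤ p ^ (s - 1) := Nat.pow_le_pow_right (by omega) (by omega)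
  rw [eval_mul, eval_pow, eval_pow, StepNum_eval c A b x hx, mul_pow]
  obtain ⟨m, hm⟩ := Nat.exists_eq_add_of_le h3
  rw [hm, Nat.add_sub_cancel_left, pow_add]
  ring

theorem StepH_eval (hp : 2 ≤ p) (u c : K) (A b : Fin r → K) (x : K) (hx : ∀ i, x ≠ b i) :
    (StepH p s u c A b).eval x = (StepDen b).eval x ^ p ^ (s - 1) *
      (u - ∑ k ∈ Finset.range s, fval c A b x ^ p ^ k) := by
  unfold StepH
  rw [eval_sub, eval_mul, eval_C, eval_pow, StepG_eval hp c A b x hx]
  ring

/-- More unknowns than equations. -/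
theorem Step_kernel {ι : Type} [Fintype ι] (N : ℕ) (P : ι → K[X])
    (hP : ∀ i, (P i).natDegree < N) (hN : N < Fintype.card ι) :
    ∃ β : ι → K, β ≠ 0 ∧ ∑ i, C (β i) * P i = 0 := by
  classical
  let L : (ι → K) →ₗ[K] (Fin N → K) := (Matrix.of fun (n : Fin N) (i : ι) => (P i).coeff n).mulVecLin
  have h1 : LinearMap.ker L ≠ ⊥ := by
    apply LinearMap.ker_ne_bot_of_finrank_lt
    rw [Module.finrank_fintype_fun_eq_card, Module.finrank_fintype_fun_eq_card, Fintype.card_fin]
    exact hN
  obtain ⟨β, hβ, hβ0⟩ := Submodule.exists_mem_ne_zero_of_ne_bot h1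
  refine ⟨β, hβ0, ?_⟩
  ext n
  rw [finsetSum_coeff, coeff_zero]
  by_cases hn : n < N
  · have h2 : L β ⟨n, hn⟩ = 0 := by
      have := LinearMap.mem_ker.1 hβ
      rw [this]; rfl
    have h3 : L β ⟨n, hn⟩ = ∑ i, (P i).coeff n * β i := rfl
    rw [← h2, h3]
    exact Finset.sum_congr rfl fun i _ => by rw [coeff_C_mul, mul_comm]
  · refine Finset.sum_eq_zero fun i _ => ?_
    rw [coeff_C_mul, coeff_eq_zero_of_natDegree_lt (lt_of_lt_of_le (hP i) (not_lt.1 hn)), mul_zero]

/-- A sum of polynomials of different degrees. -/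
theorem Step_disjoint {ι : Type} [Fintype ι] (M : ι → K[X]) (δ : ι → ℕ)
    (hM : ∀ i, M i ≠ 0 ∧ (M i).natDegree = δ i) (hδ : Function.Injective δ) (a : ι → K)
    (ha : a ≠ 0) : ∑ i, C (a i) * M i ≠ 0 := by
  classical
  obtain ⟨i0, hi0⟩ := Function.ne_iff.1 ha
  have hdeg : ∀ i, C (a i) * M i ≠ 0 → (C (a i) * M i).degree = δ i := by
    intro i hi
    have hai : a i ≠ 0 := fun h => hi (by rw [h, C_0, zero_mul])
    rw [degree_C_mul hai, degree_eq_natDegree (hM i).1, (hM i).2]
  have h1 := degree_sum_eq_of_disjoint (fun i => C (a i) * M i) Finset.univ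
    (by
      intro i hi j hj hij
      show (C (a i) * M i).degree ≠ (C (a j) * M j).degree
      rw [hdeg i hi.2, hdeg j hj.2]
      exact fun h => hij (hδ (by exact_mod_cast h)))
  intro hcon
  rw [hcon, degree_zero] at h1
  have h2 : (C (a i0) * M i0).degree ≤ ⊥ := by
    rw [h1]
    exact Finset.le_sup (f := fun i => (C (a i) * M i).degree) (Finset.mem_univ i0)
  have h3 : C (a i0) * M i0 = 0 := by
    rw [← degree_eq_bot]; exact le_bot_iff.1 h2
  have h4 : C (a i0) * M i0 ≠ 0 := mul_ne_zero (C_ne_zero.2 hi0) (hM i0).1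
  exact h4 h3

/-- The auxiliary polynomial. -/
theorem Step_gen [Fact p.Prime] [CharP K p] (hs : 1 ≤ s) (hQ : ∀ x : K, x ^ p ^ (2 * s) = x)
    (c : K) (hc : c ≠ 0) (A b : Fin r → K) (u : K) (hu : u ^ p = u) :
    ∃ Φ : K[X], Φ ≠ 0 ∧ Φ.natDegree ≤ p ^ (2 * s - 1) + (2 * r + 1) * p ^ s ∧
      ∀ x, (∀ i, x ≠ b i) → ∑ k ∈ Finset.range (2 * s), fval c A b x ^ p ^ k = u →
        Φ.eval x = 0 := by
  classical
  have hp : 2 ≤ p := (Fact.out : p.Prime).two_le
  set E := p ^ (s - 1) with hE
  set q := p ^ s with hq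
  have hE0 : 0 < E := Nat.pow_pos (by omega)
  have hqE : q = p * E := by
    rw [hq, hE, ← pow_succ']
    congr 1
    omega
  have hqq : q * q = p ^ (2 * s) := by rw [hq, ← pow_add, two_mul]
  set I := E + r + 1 with hI
  let ι := Fin E × Fin I × Fin p
  set Den := StepDen b with hDen
  set G := StepG p s c A b with hG
  set H := StepH p s u c A b with hH
  let P : ι → K[X] := fun i =>
    X ^ (i.1.val * q + i.2.1.val) * G ^ i.2.2.val * Den ^ (E * (p - 1 - i.2.2.val))
  let M : ι → K[X] := fun i =>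
    X ^ (i.1.val + q * i.2.1.val) * H ^ i.2.2.val * Den ^ (E * (p - 1 - i.2.2.val))
  let δ : ι → ℕ := fun i => i.1.val + q * i.2.1.val + i.2.2.val * ((r + 1) * E) +
    E * (p - 1 - i.2.2.val) * r
  have hDenE : ∀ j, (Den ^ (E * (p - 1 - j))).natDegree = E * (p - 1 - j) * r := by
    intro j
    rw [natDegree_pow, hDen, StepDen_natDegree]
  have hG1 : G.natDegree ≤ (r + 1) * E := StepG_natDegree_le hp c A b
  have hH1 : H.natDegree = (r + 1) * E := StepH_natDegree hp hs u c hc A b
  have hH0 : H ≠ 0 := by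
    intro h
    rw [h, natDegree_zero] at hH1
    have : 0 < (r + 1) * E := by positivity
    omega
  have hDen0 : Den ≠ 0 := (StepDen_monic b).ne_zero
  have hsplit : ∀ j : ℕ, j < p → j * ((r + 1) * E) + E * (p - 1 - j) * r =
      r * (E * (p - 1)) + j * E := by
    intro j hj
    obtain ⟨m, hm⟩ : ∃ m, p - 1 = j + m := ⟨p - 1 - j, by omega⟩
    rw [hm, Nat.add_sub_cancel_left]
    ring
  have hpE : E * (p - 1) + E = q := by
    rw [hqE]
    obtain ⟨m, hm⟩ : ∃ m, p = m + 1 := ⟨p - 1, by omega⟩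
    rw [hm, Nat.add_sub_cancel]
    ring
  -- the degrees
  have hPdeg : ∀ i : ι, (P i).natDegree < (E - 1) * q + I + (r + 1) * (E * (p - 1)) := by
    intro i
    have h1 : (P i).natDegree ≤ (i.1.val * q + i.2.1.val) + i.2.2.val * ((r + 1) * E) +
        E * (p - 1 - i.2.2.val) * r := by
      refine natDegree_mul_le.trans (Nat.add_le_add (natDegree_mul_le.trans
        (Nat.add_le_add ?_ ?_)) (hDenE _).le)
      · rw [natDegree_X_pow]
      · exact natDegree_pow_le.trans (Nat.mul_le_mul_left _ hG1)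
    have h2 := hsplit i.2.2.val i.2.2.isLt
    have h3 : i.1.val * q ≤ (E - 1) * q := Nat.mul_le_mul_right _ (by have := i.1.isLt; omega)
    have h4 := i.2.1.isLt
    have h5 : i.2.2.val * E ≤ E * (p - 1) := by
      rw [mul_comm]; exact Nat.mul_le_mul_left _ (by have := i.2.2.isLt; omega)
    have h6 : (r + 1) * (E * (p - 1)) = r * (E * (p - 1)) + E * (p - 1) := by ring
    omega
  have hcard : (E - 1) * q + I + (r + 1) * (E * (p - 1)) < Fintype.card ι := by
    have h1 : Fintype.card ι = E * (I * p) := by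
      show Fintype.card (Fin E × Fin I × Fin p) = _
      rw [Fintype.card_prod, Fintype.card_prod, Fintype.card_fin, Fintype.card_fin,
        Fintype.card_fin]
    have h2 : E * (I * p) = q * I := by rw [hqE]; ring
    rw [h1, h2, hI]
    obtain ⟨m, hm⟩ : ∃ m, E = m + 1 := ⟨E - 1, by omega⟩
    have h3 : E * (p - 1) = q - E := by omega
    have h4 : 2 * E ≤ q := by rw [hqE]; exact Nat.mul_le_mul_right _ hp
    rw [h3, hm, Nat.add_sub_cancel]
    obtain ⟨t, ht⟩ : ∃ t, q = (m + 1) + t := ⟨q - (m + 1), by omega⟩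
    have h5 : q - (m + 1) = t := by omega
    have h6 : 0 < t := by omega
    rw [h5]
    nlinarith [Nat.zero_le (m * r), Nat.zero_le m, Nat.zero_le r]
  obtain ⟨β, hβ0, hβ⟩ := Step_kernel _ P hPdeg hcard
  have hMdeg : ∀ i : ι, M i ≠ 0 ∧ (M i).natDegree = δ i := by
    intro i
    have h1 : X ^ (i.1.val + q * i.2.1.val) ≠ (0 : K[X]) := pow_ne_zero _ X_ne_zero
    have h2 : H ^ i.2.2.val ≠ 0 := pow_ne_zero _ hH0
    have h3 : Den ^ (E * (p - 1 - i.2.2.val)) ≠ 0 := pow_ne_zero _ hDen0
    refine ⟨mul_ne_zero (mul_ne_zero h1 h2) h3, ?_⟩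
    show (X ^ (i.1.val + q * i.2.1.val) * H ^ i.2.2.val *
      Den ^ (E * (p - 1 - i.2.2.val))).natDegree = _
    rw [natDegree_mul (mul_ne_zero h1 h2) h3, natDegree_mul h1 h2, natDegree_X_pow, natDegree_pow,
      hH1, hDenE]
  have hδ : ∀ i : ι, δ i = r * (E * (p - 1)) + (i.1.val + E * (i.2.2.val + p * i.2.1.val)) := by
    intro i
    have h2 := hsplit i.2.2.val i.2.2.isLt
    have h3 : E * (i.2.2.val + p * i.2.1.val) = i.2.2.val * E + q * i.2.1.val := by
      rw [hqE]; ring
    show i.1.val + q * i.2.1.val + i.2.2.val * ((r + 1) * E) +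
      E * (p - 1 - i.2.2.val) * r = _
    omega
  have hδinj : Function.Injective δ := by
    intro i j hij
    rw [hδ, hδ] at hij
    have h1 : i.1.val + E * (i.2.2.val + p * i.2.1.val) =
        j.1.val + E * (j.2.2.val + p * j.2.1.val) := by omega
    have h2 : i.1.val = j.1.val := by
      have h3 := congrArg (· % E) h1
      simp only [Nat.add_mul_mod_self_left] at h3
      rwa [Nat.mod_eq_of_lt i.1.isLt, Nat.mod_eq_of_lt j.1.isLt] at h3
    have h3 : i.2.2.val + p * i.2.1.val = j.2.2.val + p * j.2.1.val := by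
      have h4 : E * (i.2.2.val + p * i.2.1.val) = E * (j.2.2.val + p * j.2.1.val) := by omega
      exact Nat.eq_of_mul_eq_mul_left hE0 h4
    have h4 : i.2.2.val = j.2.2.val := by
      have h5 := congrArg (· % p) h3
      simp only [Nat.add_mul_mod_self_left] at h5
      rwa [Nat.mod_eq_of_lt i.2.2.isLt, Nat.mod_eq_of_lt j.2.2.isLt] at h5
    have h5 : i.2.1.val = j.2.1.val := by
      have h6 : p * i.2.1.val = p * j.2.1.val := by omega
      exact Nat.eq_of_mul_eq_mul_left (by omega) h6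
    exact Prod.ext (Fin.ext h2) (Prod.ext (Fin.ext h5) (Fin.ext h4))
  have ha : (fun i => β i ^ q) ≠ 0 := by
    intro h
    apply hβ0
    funext i
    have := congrFun h i
    exact (pow_eq_zero_iff (by omega : q ≠ 0)).1 this
  refine ⟨∑ i, C (β i ^ q) * M i, Step_disjoint M δ hMdeg hδinj _ ha, ?_, ?_⟩
  · refine natDegree_sum_le_of_forall_le _ _ fun i _ => ?_
    refine (natDegree_C_mul_le _ _).trans ?_
    rw [(hMdeg i).2, hδ]
    have h1 : i.2.2.val + p * i.2.1.val ≤ p * I - 1 := by
      have h2 := i.2.2.isLt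
      have h3 : p * i.2.1.val + p ≤ p * I := by
        have : i.2.1.val + 1 ≤ I := i.2.1.isLt
        calc p * i.2.1.val + p = p * (i.2.1.val + 1) := by ring
          _ ≤ p * I := Nat.mul_le_mul_left _ this
      omega
    have h2 : E * (i.2.2.val + p * i.2.1.val) ≤ E * (p * I - 1) := Nat.mul_le_mul_left _ h1
    have h3 : E * (p * I - 1) + E = q * I := by
      have : 0 < p * I := by positivity
      obtain ⟨m, hm⟩ : ∃ m, p * I = m + 1 := ⟨p * I - 1, by omega⟩
      rw [hm, Nat.add_sub_cancel]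
      calc E * m + E = E * (m + 1) := by ring
        _ = E * (p * I) := by rw [hm]
        _ = q * I := by rw [hqE]; ring
    have h4 := i.1.isLt
    have h5 : r * (E * (p - 1)) ≤ r * q := Nat.mul_le_mul_left _ (by omega)
    have h6 : q * I = q * E + (r + 1) * q := by rw [hI]; ring
    have h7 : q * E = p ^ (2 * s - 1) := by
      rw [hq, hE, ← pow_add]
      congr 1
      omega
    have h8 : (2 * r + 1) * q = r * q + (r + 1) * q := by ring
    omega
  · intro x hx htr
    set d := Den.eval x with hd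
    have hd0 : d ≠ 0 := StepDen_eval b x hx
    set T := ∑ k ∈ Finset.range s, fval c A b x ^ p ^ k with hT
    have hTq : T + T ^ q = u := by
      rw [← htr, two_mul, Finset.sum_range_add, ← hT]
      congr 1
      rw [hT, hq, sum_pow_char_pow]
      exact Finset.sum_congr rfl fun k _ => by rw [← pow_mul, ← pow_add, add_comm]
    have huq : u ^ q = u := by
      have : ∀ n : ℕ, u ^ p ^ n = u := by
        intro n
        induction n with
        | zero => rw [pow_zero, pow_one]
        | succ n ih => rw [pow_succ, pow_mul, ih, hu]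
      exact this s
    have hGx : G.eval x = d ^ E * T := StepG_eval hp c A b x hx
    have hHx : H.eval x = d ^ E * (u - T) := StepH_eval hp u c A b x hx
    have hHq : H.eval x ^ q = d ^ (E * q) * T := by
      rw [hHx, mul_pow, ← pow_mul, hq, sub_pow_char_pow, ← hq, huq]
      congr 1
      rw [← hTq]; ring
    -- the relation
    have hrel : ∑ i : ι, β i * (x ^ (i.1.val * q + i.2.1.val) * T ^ i.2.2.val) = 0 := by
      have h1 := congrArg (Polynomial.eval x) hβ
      rw [eval_finsetSum, eval_zero] at h1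
      have h2 : ∀ i : ι, (C (β i) * P i).eval x = d ^ (E * (p - 1)) *
          (β i * (x ^ (i.1.val * q + i.2.1.val) * T ^ i.2.2.val)) := by
        intro i
        show (C (β i) * (X ^ (i.1.val * q + i.2.1.val) * G ^ i.2.2.val *
          Den ^ (E * (p - 1 - i.2.2.val)))).eval x = _
        rw [eval_mul, eval_C, eval_mul, eval_mul, eval_pow, eval_X, eval_pow, eval_pow, hGx, ← hd]
        have h3 : d ^ (E * (p - 1)) = (d ^ E) ^ i.2.2.val * d ^ (E * (p - 1 - i.2.2.val)) := by
          rw [← pow_mul, ← pow_add, ← Nat.mul_add]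
          congr 2
          have := i.2.2.isLt
          omega
        rw [h3, mul_pow]
        ring
      rw [Finset.sum_congr rfl fun i _ => h2 i, ← Finset.mul_sum] at h1
      exact (mul_eq_zero.1 h1).resolve_left (pow_ne_zero _ hd0)
    have hpow : ((∑ i, C (β i ^ q) * M i).eval x) ^ q = 0 := by
      rw [eval_finsetSum, hq, sum_pow_char_pow, ← hq]
      have h2 : ∀ i : ι, ((C (β i ^ q) * M i).eval x) ^ q = d ^ (E * (p - 1) * q) *
          (β i * (x ^ (i.1.val * q + i.2.1.val) * T ^ i.2.2.val)) := by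
        intro i
        show ((C (β i ^ q) * (X ^ (i.1.val + q * i.2.1.val) * H ^ i.2.2.val *
          Den ^ (E * (p - 1 - i.2.2.val)))).eval x) ^ q = _
        rw [eval_mul, eval_C, eval_mul, eval_mul, eval_pow, eval_X, eval_pow, eval_pow, ← hd,
          mul_pow, mul_pow, mul_pow, ← pow_mul, hqq, hQ]
        have h3 : (x ^ (i.1.val + q * i.2.1.val)) ^ q = x ^ (i.1.val * q + i.2.1.val) := by
          rw [← pow_mul, add_mul, pow_add, pow_add]
          congr 1
          have : q * i.2.1.val * q = p ^ (2 * s) * i.2.1.val := by rw [← hqq]; ring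
          rw [this, pow_mul, hQ]
        have h4 : (H.eval x ^ i.2.2.val) ^ q = (d ^ (E * q) * T) ^ i.2.2.val := by
          rw [← pow_mul, mul_comm, pow_mul, hHq]
        have h5 : d ^ (E * (p - 1) * q) = (d ^ (E * q)) ^ i.2.2.val *
            (d ^ (E * (p - 1 - i.2.2.val))) ^ q := by
          rw [← pow_mul, ← pow_mul, ← pow_add]
          congr 1
          have h6 := i.2.2.isLt
          obtain ⟨m, hm⟩ : ∃ m, p - 1 = i.2.2.val + m := ⟨p - 1 - i.2.2.val, by omega⟩
          rw [hm, Nat.add_sub_cancel_left]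
          ring
        rw [h3, h4, h5, mul_pow]
        ring
      rw [Finset.sum_congr rfl fun i _ => h2 i, ← Finset.mul_sum, hrel, mul_zero]
    exact (pow_eq_zero_iff (by omega : q ≠ 0)).1 hpow

end gen

/-- Upper bound for the number of points with given trace over fields of even degree. -/
theorem step_upper (p : ℕ) [Fact p.Prime] (r : ℕ) : ∃ B : ℝ, 0 ≤ B ∧
    ∀ (C : ZMod p) (A b : Fin r → ZMod p), C ≠ 0 → ∀ (s : ℕ), 1 ≤ s → ∀ c : ZMod p,
      (Set.ncard {x : GaloisField p (2 * s) | x ∈ reg p (2 * s) b ∧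
        Algebra.trace (ZMod p) (GaloisField p (2 * s)) (fgal p (2 * s) C A b x) = c} : ℝ) ≤
        (p : ℝ) ^ (2 * s) / p + B * (p : ℝ) ^ s := by
  refine ⟨2 * r + 1, by positivity, ?_⟩
  intro C A b hC s hs c
  classical
  have hp : 2 ≤ p := (Fact.out : p.Prime).two_le
  have h2s : 2 * s ≠ 0 := by omega
  let K := GaloisField p (2 * s)
  have hfin : Finite K := inferInstance
  let am := algebraMap (ZMod p) K
  have ham : Function.Injective am := (algebraMap (ZMod p) K).injective
  have hQ : ∀ x : K, x ^ p ^ (2 * s) = x := by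
    intro x
    have : Fintype K := Fintype.ofFinite K
    have h1 := FiniteField.pow_card x
    rwa [← Nat.card_eq_fintype_card, GaloisField.card p (2 * s) h2s] at h1
  have htr : ∀ x : K, am (Algebra.trace (ZMod p) K x) =
      ∑ k ∈ Finset.range (2 * s), x ^ p ^ k := by
    intro x
    have h1 := FiniteField.algebraMap_trace_eq_sum_pow (ZMod p) K x
    rw [GaloisField.finrank p h2s, Nat.card_zmod] at h1
    exact h1
  have hu : (am c) ^ p = am c := by rw [← map_pow, ZMod.pow_card]
  have hC' : am C ≠ 0 := by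
    intro h
    exact hC (ham (by rw [h, map_zero]))
  obtain ⟨Φ, hΦ0, hΦd, hΦ⟩ := Step_gen hs hQ (am C) hC' (fun i => am (A i)) (fun i => am (b i))
    (am c) hu
  have hsub : {x : K | x ∈ reg p (2 * s) b ∧
      Algebra.trace (ZMod p) K (fgal p (2 * s) C A b x) = c} ⊆ (Φ.roots.toFinset : Set K) := by
    rintro x ⟨hx1, hx2⟩
    rw [Finset.mem_coe, Multiset.mem_toFinset, mem_roots hΦ0]
    refine hΦ x hx1 ?_
    rw [← hx2]
    exact (htr _).symm
  have h1 := (Set.ncard_le_ncard hsub (Finset.finite_toSet _)).trans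
    (le_of_eq (Set.ncard_coe_finset _))
  have h2 : Φ.roots.toFinset.card ≤ Φ.natDegree :=
    (Multiset.toFinset_card_le _).trans (card_roots' Φ)
  have h3 : (Set.ncard {x : K | x ∈ reg p (2 * s) b ∧
      Algebra.trace (ZMod p) K (fgal p (2 * s) C A b x) = c} : ℝ) ≤
      ((p ^ (2 * s - 1) + (2 * r + 1) * p ^ s : ℕ) : ℝ) := by
    exact_mod_cast (h1.trans h2).trans hΦd
  refine h3.trans (le_of_eq ?_)
  have hp0 : (p : ℝ) ≠ 0 := by positivity
  push_cast
  congr 1
  rw [eq_div_iff hp0, ← pow_succ]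
  congr 1
  omega

/-- The character sum over fields of even degree. -/
theorem step_sum (p : ℕ) [Fact p.Prime] {r : ℕ} (C : ZMod p) (A b : Fin r → ZMod p)
    (hC : C ≠ 0) (ψ : AddChar (ZMod p) ℂ) (hψ : ψ ≠ 1) : ∃ B : ℝ,
    ∀ s : ℕ, 1 ≤ s → ‖Ssum p C A b ψ (2 * s)‖ ≤ B * (p : ℝ) ^ s := by
  classical
  obtain ⟨B, hB0, hB⟩ := step_upper p r
  have hp : 2 ≤ p := (Fact.out : p.Prime).two_le
  have hp0 : (0 : ℝ) < p := by positivity
  refine ⟨p * (p * B + r), ?_⟩
  intro s hs
  have h2s : 2 * s ≠ 0 := by omega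
  have hfin : Finite (GaloisField p (2 * s)) := inferInstance
  let K := GaloisField p (2 * s)
  have : Fintype K := Fintype.ofFinite K
  let am := algebraMap (ZMod p) K
  set R : Finset K := (Set.toFinite (reg p (2 * s) b)).toFinset with hR
  let tr : K → ZMod p := fun x => Algebra.trace (ZMod p) K (fgal p (2 * s) C A b x)
  let N : ZMod p → ℕ := fun c => (R.filter fun x => tr x = c).card
  have hNup : ∀ c, (N c : ℝ) ≤ (p : ℝ) ^ (2 * s) / p + B * (p : ℝ) ^ s := by
    intro c
    have h1 := hB C A b hC s hs c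
    have h2 : {x : K | x ∈ reg p (2 * s) b ∧ tr x = c} =
        ((R.filter fun x => tr x = c : Finset K) : Set K) := by
      ext x
      simp [hR]
    have h3 : Set.ncard {x : K | x ∈ reg p (2 * s) b ∧ tr x = c} = N c := by
      rw [h2, Set.ncard_coe_finset]
    rw [← h3]
    exact h1
  have hsum : ∑ c, N c = R.card := by
    rw [Finset.card_eq_sum_card_fiberwise (f := tr) (t := Finset.univ)
      (fun x _ => Finset.mem_coe.2 (Finset.mem_univ _))]
  have hcardK : Fintype.card K = p ^ (2 * s) := by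
    rw [← Nat.card_eq_fintype_card]
    exact GaloisField.card p (2 * s) h2s
  have hRcard : (p : ℝ) ^ (2 * s) - r ≤ R.card := by
    have h1 : (Finset.univ : Finset K) ⊆ R ∪ (Finset.univ.image fun i => am (b i)) := by
      intro x _
      rw [Finset.mem_union]
      by_cases hx : x ∈ R
      · exact Or.inl hx
      · right
        have hx' : x ∉ reg p (2 * s) b := by
          intro h; exact hx (by rw [hR]; simpa using h)
        have hx'' : ¬ ∀ i, x ≠ am (b i) := hx'
        push Not at hx''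
        obtain ⟨i, hi⟩ := hx''
        exact Finset.mem_image.2 ⟨i, Finset.mem_univ _, hi.symm⟩
    have h2 := (Finset.card_le_card h1).trans (Finset.card_union_le _ _)
    rw [Finset.card_univ, hcardK] at h2
    have h3 : (Finset.univ.image fun i => am (b i)).card ≤ r := by
      refine Finset.card_image_le.trans ?_
      rw [Finset.card_univ, Fintype.card_fin]
    have h4 : p ^ (2 * s) ≤ R.card + r := by omega
    have h5 : ((p ^ (2 * s) : ℕ) : ℝ) ≤ ((R.card + r : ℕ) : ℝ) := by exact_mod_cast h4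
    push_cast at h5
    linarith
  have hsumR : ∑ c, (N c : ℝ) = R.card := by exact_mod_cast hsum
  set V : ℝ := (p : ℝ) ^ (2 * s) / p with hV
  have hpV : (p : ℝ) * V = (p : ℝ) ^ (2 * s) := by rw [hV]; field_simp
  have hps : (1 : ℝ) ≤ (p : ℝ) ^ s := one_le_pow₀ (by exact_mod_cast (by omega : 1 ≤ p))
  have habs : ∀ c, |(N c : ℝ) - V| ≤ (p * B + r) * (p : ℝ) ^ s := by
    intro c
    have hr0 : (0 : ℝ) ≤ r := by positivity
    have h6 : (r : ℝ) ≤ r * (p : ℝ) ^ s := by nlinarith
    have hBp : 0 ≤ B * (p : ℝ) ^ s := by positivity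
    have hp1 : (1 : ℝ) ≤ p := by exact_mod_cast (by omega : 1 ≤ p)
    rw [abs_le]
    constructor
    · have h1 : ∑ c' ∈ Finset.univ.erase c, (N c' : ℝ) ≤
          ∑ _c' ∈ Finset.univ.erase c, (V + B * (p : ℝ) ^ s) :=
        Finset.sum_le_sum fun c' _ => hNup c'
      rw [Finset.sum_const, Finset.card_erase_of_mem (Finset.mem_univ _), Finset.card_univ,
        ZMod.card, nsmul_eq_mul, Nat.cast_sub (by omega : 1 ≤ p), Nat.cast_one] at h1
      have h2 : (N c : ℝ) + ∑ c' ∈ Finset.univ.erase c, (N c' : ℝ) = R.card := by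
        rw [← hsumR]
        exact Finset.add_sum_erase Finset.univ (fun c => (N c : ℝ)) (Finset.mem_univ c)
      nlinarith
    · have h1 := hNup c
      nlinarith
  have hS : Ssum p C A b ψ (2 * s) = ∑ c, (N c : ℂ) * ψ c := by
    unfold Ssum
    rw [finsum_mem_eq_finite_toFinset_sum _ (Set.toFinite (reg p (2 * s) b)), ← hR]
    have h1 : ∑ x ∈ R, ψ (tr x) = ∑ c, ∑ x ∈ R with tr x = c, ψ (tr x) :=
      (Finset.sum_fiberwise R tr fun x => ψ (tr x)).symm
    refine h1.trans (Finset.sum_congr rfl fun c _ => ?_)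
    rw [Finset.sum_congr rfl (g := fun _ => ψ c) (fun x hx => by rw [(Finset.mem_filter.1 hx).2]),
      Finset.sum_const, nsmul_eq_mul]
  have hψ0 : ∑ c, ψ c = 0 := by
    rw [AddChar.sum_eq_ite, if_neg (show ¬ ψ = 0 from hψ)]
  have hS2 : Ssum p C A b ψ (2 * s) = ∑ c, (((N c : ℝ) - V : ℝ) : ℂ) * ψ c := by
    rw [hS]
    have : ∑ c, (((N c : ℝ) - V : ℝ) : ℂ) * ψ c = ∑ c, (N c : ℂ) * ψ c - (V : ℂ) * ∑ c, ψ c := by
      rw [Finset.mul_sum, ← Finset.sum_sub_distrib]
      exact Finset.sum_congr rfl fun c _ => by push_cast; ring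
    rw [this, hψ0, mul_zero, sub_zero]
  rw [hS2]
  refine (norm_sum_le _ _).trans ?_
  have h7 : ∀ c : ZMod p, ‖(((N c : ℝ) - V : ℝ) : ℂ) * ψ c‖ ≤ (p * B + r) * (p : ℝ) ^ s := by
    intro c
    rw [norm_mul, AddChar.norm_apply, mul_one, Complex.norm_real, Real.norm_eq_abs]
    exact habs c
  refine (Finset.sum_le_sum fun c _ => h7 c).trans (le_of_eq ?_)
  rw [Finset.sum_const, Finset.card_univ, ZMod.card, nsmul_eq_mul]
  ring

end Pool.Agent.Weil
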