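import Pool.Agent.Weil.Newt
import Pool.Agent.Weil.Step
import Pool.Agent.Weil.Root

set_option autoImplicit false

/-! MODULE MAIN (helper68): the bound over the prime field, polar part `C x` with `C ≠ 0`. -/

namespace Pool.Agent.Weil

open Polynomial

variable {p : ℕ} [Fact p.Prime] {r : ℕ}

theorem main_Ssum (C : ZMod p) (A b : Fin r → ZMod p) (ψ : AddChar (ZMod p) ℂ) (hC : C ≠ 0)
    (hψ : ψ ≠ 1) : ‖Ssum p C A b ψ 1‖ ≤ 2 * r * Real.sqrt p := by
  obtain ⟨B, hB⟩ := step_sum p C A b hC ψ hψ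
  have h := root_bound (2 * r) (cc C A b ψ) (Ssum p C A b ψ) (cc_zero C A b ψ)
    (fun d hd => cc_eq_zero C A b ψ hC hψ d hd) (fun d _ => newton C A b ψ d) p B
    (by exact_mod_cast (Fact.out : p.Prime).pos) hB
  push_cast at h
  exact h

open Classical in
theorem main_one (C : ZMod p) (A b : Fin r → ZMod p) (ψ : AddChar (ZMod p) ℂ) :
    Ssum p C A b ψ 1 = ∑ x : ZMod p with ∀ i, x ≠ b i, ψ (fval C A b x) := by
  have hfin := Fintype.ofFinite (GaloisField p 1)
  have hinj : Function.Injective (algebraMap (ZMod p) (GaloisField p 1)) :=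
    (algebraMap (ZMod p) (GaloisField p 1)).injective
  unfold Ssum
  rw [finsum_mem_def, finsum_eq_sum_of_fintype,
    ← Equiv.sum_comp (GaloisField.equivZmodP p).symm.toEquiv, Finset.sum_filter]
  apply Finset.sum_congr rfl
  intro y _
  have hy : (GaloisField.equivZmodP p).symm.toEquiv y =
      algebraMap (ZMod p) (GaloisField p 1) y := (GaloisField.equivZmodP p).symm.commutes y
  rw [hy]
  have h1 : algebraMap (ZMod p) (GaloisField p 1) y ∈ reg p 1 b ↔ ∀ i, y ≠ b i := by
    unfold reg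
    rw [Set.mem_ofPred_eq]
    exact forall_congr' fun i => not_congr hinj.eq_iff
  have h2 : fgal p 1 C A b (algebraMap (ZMod p) (GaloisField p 1) y) =
      algebraMap (ZMod p) (GaloisField p 1) (fval C A b y) := by
    unfold fgal fval
    simp only [map_add, map_mul, map_sum, map_div₀, map_sub]
  split_ifs with h
  · rw [Set.indicator_of_mem (h1.mpr h), h2, Algebra.trace_algebraMap, GaloisField.finrank p
      one_ne_zero, one_smul]
  · rw [Set.indicator_of_notMem (fun h3 => h (h1.mp h3))]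

open Classical in
/-- Weil's bound for `C x + ∑ A i / (x - b i)`, `C ≠ 0`. -/
theorem main_bound (C : ZMod p) (A b : Fin r → ZMod p) (ψ : AddChar (ZMod p) ℂ) (hC : C ≠ 0)
    (hψ : ψ ≠ 1) : ‖∑ x : ZMod p with ∀ i, x ≠ b i, ψ (fval C A b x)‖ ≤
      2 * r * Real.sqrt p := by
  rw [← main_one]
  exact main_Ssum C A b ψ hC hψ

end Pool.Agent.Weil
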