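import Pool.Agent.Weil.Fld

set_option autoImplicit false

/-! MODULE NEWT (helper68): Newton's identity between the sums over the extensions and the
coefficients of the L-function. -/

namespace Pool.Agent.Weil

open Polynomial UniqueFactorizationMonoid

variable {p : ℕ} [Fact p.Prime]

open Classical in
/-- monic irreducible polynomials of degree `m` -/
noncomputable def irr (p : ℕ) [Fact p.Prime] (m : ℕ) : Finset (ZMod p)[X] :=
  (mon p m).filter Irreducible

theorem mem_irr {m : ℕ} {P : (ZMod p)[X]} :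
    P ∈ irr p m ↔ P.Monic ∧ P.natDegree = m ∧ Irreducible P := by
  classical
  unfold irr
  rw [Finset.mem_filter, mem_mon, and_assoc]

theorem newt_pow_dvd {G P : (ZMod p)[X]} (hG : G ≠ 0) (hP : Irreducible P)
    (hm : P.Monic) (k : ℕ) : P ^ k ∣ G ↔ k ≤ (normalizedFactors G).count P := by
  rw [pow_dvd_iff_le_emultiplicity, emultiplicity_eq_count_normalizedFactors hP hG,
    hm.normalize_eq_self]
  exact_mod_cast Iff.rfl

theorem newt_le {d : ℕ} {G P : (ZMod p)[X]} (hG : G ∈ mon p d) (hP : Irreducible P)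
    (hm : P.Monic) {k : ℕ} (h : P ^ k ∣ G) : P.natDegree * k ≤ d := by
  rw [mem_mon] at hG
  have h1 := natDegree_le_of_dvd h hG.1.ne_zero
  rw [hm.natDegree_pow, hG.2] at h1
  rw [mul_comm]
  exact h1

theorem newt_le' {d : ℕ} {G P : (ZMod p)[X]} (hG : G ∈ mon p d) (hP : Irreducible P)
    (hm : P.Monic) {k : ℕ} (h : P ^ k ∣ G) : k ≤ d := by
  have h1 := newt_le hG hP hm h
  have h2 := hP.natDegree_pos
  nlinarith

open Classical in
/-- the multiplicity of `P` in `G` as a number of exponents -/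
theorem newt_count {d : ℕ} {G P : (ZMod p)[X]} (hG : G ∈ mon p d) (hP : Irreducible P)
    (hm : P.Monic) : ((Finset.Icc 1 d).filter fun k => P ^ k ∣ G).card =
      (normalizedFactors G).count P := by
  have hG0 : G ≠ 0 := (mem_mon.mp hG).1.ne_zero
  have h1 : ((Finset.Icc 1 d).filter fun k => P ^ k ∣ G) =
      Finset.Icc 1 ((normalizedFactors G).count P) := by
    ext k
    rw [Finset.mem_filter, Finset.mem_Icc, Finset.mem_Icc, newt_pow_dvd hG0 hP hm]
    constructor
    · rintro ⟨⟨h1, _⟩, h3⟩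
      exact ⟨h1, h3⟩
    · rintro ⟨h1, h3⟩
      exact ⟨⟨h1, newt_le' hG hP hm ((newt_pow_dvd hG0 hP hm k).mpr h3)⟩, h3⟩
  rw [h1, Nat.card_Icc]
  omega

theorem newt_degree {d : ℕ} {G : (ZMod p)[X]} (hG : G ∈ mon p d) :
    d = ∑ m ∈ Finset.Icc 1 d, ∑ P ∈ irr p m, m * (normalizedFactors G).count P := by
  have hG' := mem_mon.mp hG
  have hG0 : G ≠ 0 := hG'.1.ne_zero
  have hmem : ∀ P ∈ normalizedFactors G, Irreducible P ∧ P.Monic ∧ P ∣ G := fun P hP =>
    (Polynomial.mem_normalizedFactors_iff hG0).mp hP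
  have h1 : (normalizedFactors G).prod = G := by
    have := leadingCoeff_mul_prod_normalizedFactors G
    rwa [hG'.1.leadingCoeff, Polynomial.C_1, one_mul] at this
  have h2 : d = ((normalizedFactors G).map natDegree).sum := by
    rw [← natDegree_multiset_prod_of_monic _ fun P hP => (hmem P hP).2.1, h1, hG'.2]
  rw [Finset.sum_multiset_map_count] at h2
  have h3 : ∑ P ∈ (normalizedFactors G).toFinset, (normalizedFactors G).count P • P.natDegree =
      ∑ P ∈ (Finset.Icc 1 d).biUnion (irr p), P.natDegree * (normalizedFactors G).count P := by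
    have h4 : ∑ P ∈ (normalizedFactors G).toFinset, (normalizedFactors G).count P • P.natDegree =
        ∑ P ∈ (normalizedFactors G).toFinset,
          P.natDegree * (normalizedFactors G).count P := by
      apply Finset.sum_congr rfl
      intro P _
      rw [smul_eq_mul, mul_comm]
    rw [h4]
    apply Finset.sum_subset
    · intro P hP
      rw [Multiset.mem_toFinset] at hP
      obtain ⟨i1, i2, i3⟩ := hmem P hP
      rw [Finset.mem_biUnion]
      refine ⟨P.natDegree, Finset.mem_Icc.mpr ⟨i1.natDegree_pos, ?_⟩, mem_irr.mpr ⟨i2, rfl, i1⟩⟩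
      rw [← hG'.2]
      exact natDegree_le_of_dvd i3 hG0
    · intro P _ hP
      rw [Multiset.mem_toFinset] at hP
      rw [Multiset.count_eq_zero_of_notMem hP, mul_zero]
  rw [h3, Finset.sum_biUnion] at h2
  · exact h2.trans (Finset.sum_congr rfl fun m _ => Finset.sum_congr rfl fun P hP => by
      rw [(mem_irr.mp hP).2.1])
  · intro m _ n _ hmn
    rw [Function.onFun, Finset.disjoint_left]
    intro P h4 h5
    exact hmn ((mem_irr.mp h4).2.1.symm.trans (mem_irr.mp h5).2.1)

variable {r : ℕ} (C : ZMod p) (A b : Fin r → ZMod p) (ψ : AddChar (ZMod p) ℂ)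

theorem newt_chi_pow (P : (ZMod p)[X]) (k : ℕ) (hP : P.Monic) :
    chi C A b ψ (P ^ k) = (chi C A b ψ P) ^ k := by
  induction k with
  | zero => rw [pow_zero, pow_zero, chi_one]
  | succ k ih => rw [pow_succ, pow_succ, chi_mul C A b ψ (hP.pow k) hP, ih]

theorem newt_term (s : ℕ) (hs : s ≠ 0) (x : GaloisField p s) :
    (reg p s b).indicator (fun x => ψ (Algebra.trace (ZMod p) (GaloisField p s)
      (fgal p s C A b x))) x =
      chi C A b ψ ((minpoly (ZMod p) x) ^ (s / (minpoly (ZMod p) x).natDegree)) := by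
  have hk : s / (minpoly (ZMod p) x).natDegree ≠ 0 := by
    have h1 := Nat.div_pos (Nat.le_of_dvd (Nat.pos_of_ne_zero hs) (fld_dvd hs x)) (fld_pos x)
    omega
  by_cases hx : x ∈ reg p s b
  · rw [Set.indicator_of_mem hx, fld_trace C A b hs x hx]
    unfold chi
    rw [if_pos]
    intro i
    rw [eval_pow]
    exact pow_ne_zero _ ((fld_reg b x).mp hx i)
  · rw [Set.indicator_of_notMem hx]
    unfold chi
    rw [if_neg]
    intro h
    apply hx
    rw [fld_reg]
    intro i hi
    apply h i
    rw [eval_pow, hi, zero_pow hk]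

theorem newt_Ssum (s : ℕ) (hs : s ≠ 0) : Ssum p C A b ψ s =
    ∑ m ∈ s.divisors, ∑ P ∈ irr p m, (m : ℂ) * chi C A b ψ (P ^ (s / m)) := by
  classical
  have hfin := Fintype.ofFinite (GaloisField p s)
  unfold Ssum
  rw [finsum_mem_def, finsum_eq_sum_of_fintype]
  rw [Finset.sum_congr rfl fun x _ => newt_term C A b ψ s hs x]
  have h1 : ∀ x ∈ (Finset.univ : Finset (GaloisField p s)), minpoly (ZMod p) x ∈
      (s.divisors).biUnion (irr p) := by
    intro x _
    rw [Finset.mem_biUnion]
    exact ⟨_, Nat.mem_divisors.mpr ⟨fld_dvd hs x, hs⟩,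
      mem_irr.mpr ⟨fld_monic x, rfl, fld_irr x⟩⟩
  rw [← Finset.sum_fiberwise_of_maps_to h1, Finset.sum_biUnion]
  · apply Finset.sum_congr rfl
    intro m hm
    apply Finset.sum_congr rfl
    intro P hP
    obtain ⟨i1, i2, i3⟩ := mem_irr.mp hP
    have h2 : ∀ x ∈ Finset.univ.filter (fun x : GaloisField p s => minpoly (ZMod p) x = P),
        chi C A b ψ ((minpoly (ZMod p) x) ^ (s / (minpoly (ZMod p) x).natDegree)) =
          chi C A b ψ (P ^ (s / m)) := by
      intro x hx
      rw [(Finset.mem_filter.mp hx).2, i2]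
    rw [Finset.sum_congr rfl h2, Finset.sum_const, nsmul_eq_mul]
    congr 2
    have h3 := fld_count hs P i3 i1 (by rw [i2]; exact Nat.dvd_of_mem_divisors hm)
    rw [i2] at h3
    rw [← h3, Set.ncard_eq_toFinset_card']
    congr 1
    ext x
    simp
  · intro m _ n _ hmn
    rw [Function.onFun, Finset.disjoint_left]
    intro P h4 h5
    exact hmn ((mem_irr.mp h4).2.1.symm.trans (mem_irr.mp h5).2.1)

open Classical in
/-- sum of the character over the multiples of `P ^ k` -/
theorem newt_mul (d m k : ℕ) (P : (ZMod p)[X]) (hP : P ∈ irr p m) :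
    ∑ G ∈ mon p d with P ^ k ∣ G, chi C A b ψ G =
      if m * k ≤ d then chi C A b ψ (P ^ k) * cc C A b ψ (d - m * k) else 0 := by
  obtain ⟨i1, i2, i3⟩ := mem_irr.mp hP
  have hPk : (P ^ k).Monic := i1.pow k
  have hPd : (P ^ k).natDegree = m * k := by rw [i1.natDegree_pow, i2, mul_comm]
  split_ifs with hmk
  · unfold cc
    rw [Finset.mul_sum]
    symm
    refine Finset.sum_bij (fun H _ => P ^ k * H) ?_ ?_ ?_ ?_
    · intro H hH
      obtain ⟨j1, j2⟩ := mem_mon.mp hH
      rw [Finset.mem_filter, mem_mon]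
      refine ⟨⟨hPk.mul j1, ?_⟩, dvd_mul_right _ _⟩
      rw [hPk.natDegree_mul j1, hPd, j2]
      omega
    · intro H _ H' _ h
      exact mul_left_cancel₀ hPk.ne_zero h
    · intro G hG
      rw [Finset.mem_filter, mem_mon] at hG
      obtain ⟨⟨j1, j2⟩, H, hH⟩ := hG
      have hHm : H.Monic := by
        have : (P ^ k * H).Monic := by rw [← hH]; exact j1
        exact hPk.of_mul_monic_left this
      refine ⟨H, mem_mon.mpr ⟨hHm, ?_⟩, hH.symm⟩
      rw [hH, hPk.natDegree_mul hHm, hPd] at j2
      omega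
    · intro H hH
      rw [chi_mul C A b ψ hPk (mem_mon.mp hH).1]
  · apply Finset.sum_eq_zero
    intro G hG
    rw [Finset.mem_filter] at hG
    exfalso
    apply hmk
    have := newt_le hG.1 i3 i1 hG.2
    rwa [i2] at this

theorem newton (d : ℕ) : (d : ℂ) * cc C A b ψ d =
    ∑ s ∈ Finset.Icc 1 d, Ssum p C A b ψ s * cc C A b ψ (d - s) := by
  classical
  -- left side
  have hL : (d : ℂ) * cc C A b ψ d = ∑ m ∈ Finset.Icc 1 d, ∑ P ∈ irr p m,
      ∑ k ∈ Finset.Icc 1 d, (m : ℂ) * (if m * k ≤ d then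
        chi C A b ψ (P ^ k) * cc C A b ψ (d - m * k) else 0) := by
    unfold cc
    rw [Finset.mul_sum]
    have h1 : ∀ G ∈ mon p d, (d : ℂ) * chi C A b ψ G = ∑ m ∈ Finset.Icc 1 d, ∑ P ∈ irr p m,
        ∑ k ∈ Finset.Icc 1 d, (m : ℂ) * (if P ^ k ∣ G then chi C A b ψ G else 0) := by
      intro G hG
      have h2 : (d : ℂ) = ∑ m ∈ Finset.Icc 1 d, ∑ P ∈ irr p m,
          (m : ℂ) * ((normalizedFactors G).count P : ℂ) := by
        have h2 := congrArg (Nat.cast : ℕ → ℂ) (newt_degree hG)
        push_cast at h2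
        exact h2
      conv_lhs => rw [h2]
      rw [Finset.sum_mul]
      apply Finset.sum_congr rfl
      intro m _
      rw [Finset.sum_mul]
      apply Finset.sum_congr rfl
      intro P hP
      obtain ⟨i1, i2, i3⟩ := mem_irr.mp hP
      rw [← Finset.mul_sum, mul_assoc]
      congr 1
      rw [← Finset.sum_filter, Finset.sum_const, nsmul_eq_mul, newt_count hG i3 i1]
    rw [Finset.sum_congr rfl h1, Finset.sum_comm]
    apply Finset.sum_congr rfl
    intro m _
    rw [Finset.sum_comm]
    apply Finset.sum_congr rfl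
    intro P hP
    rw [Finset.sum_comm]
    apply Finset.sum_congr rfl
    intro k _
    rw [← Finset.mul_sum, ← Finset.sum_filter, newt_mul C A b ψ d m k P hP]
    rfl
  rw [hL]
  -- right side
  have hR : ∀ s ∈ Finset.Icc 1 d, Ssum p C A b ψ s * cc C A b ψ (d - s) =
      ∑ m ∈ Finset.Icc 1 d, ∑ k ∈ Finset.Icc 1 d, if m * k = s then
        ∑ P ∈ irr p m, (m : ℂ) * (chi C A b ψ (P ^ k) * cc C A b ψ (d - m * k)) else 0 := by
    intro s hs
    rw [Finset.mem_Icc] at hs
    have hs0 : s ≠ 0 := by omega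
    rw [newt_Ssum C A b ψ s hs0, Finset.sum_mul]
    have h3 : s.divisors ⊆ Finset.Icc 1 d := by
      intro m hm
      rw [Finset.mem_Icc]
      exact ⟨Nat.pos_of_mem_divisors hm, (Nat.divisor_le hm).trans hs.2⟩
    rw [← Finset.sum_subset h3]
    · apply Finset.sum_congr rfl
      intro m hm
      obtain ⟨k, hk⟩ := Nat.dvd_of_mem_divisors hm
      have hm0 : 0 < m := Nat.pos_of_mem_divisors hm
      have hk0 : 0 < k := by
        rcases Nat.eq_zero_or_pos k with h | h
        · rw [h, mul_zero] at hk; omega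
        · exact h
      have hsm : s / m = k := Nat.div_eq_of_eq_mul_right hm0 hk
      rw [Finset.sum_eq_single k]
      · rw [if_pos hk.symm, hsm, Finset.sum_mul]
        apply Finset.sum_congr rfl
        intro P _
        rw [← hk]
        ring
      · intro j _ hj
        rw [if_neg]
        intro h
        apply hj
        have : m * j = m * k := by rw [h, hk]
        exact Nat.eq_of_mul_eq_mul_left hm0 this
      · intro h
        exfalso
        apply h
        rw [Finset.mem_Icc]
        refine ⟨hk0, ?_⟩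
        have : k ≤ s := by rw [hk]; nlinarith
        omega
    · intro m _ hm
      apply Finset.sum_eq_zero
      intro k _
      rw [if_neg]
      intro h
      apply hm
      rw [Nat.mem_divisors]
      exact ⟨⟨k, h.symm⟩, hs0⟩
  rw [Finset.sum_congr rfl hR, Finset.sum_comm]
  apply Finset.sum_congr rfl
  intro m hm
  rw [Finset.sum_comm]
  symm
  rw [Finset.sum_comm]
  symm
  apply Finset.sum_congr rfl
  intro k hk
  rw [Finset.mem_Icc] at hm hk
  by_cases h : m * k ≤ d
  · rw [Finset.sum_eq_single (m * k)]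
    · rw [if_pos rfl]
      apply Finset.sum_congr rfl
      intro P _
      rw [if_pos h]
    · intro s _ hs
      rw [if_neg (Ne.symm hs)]
    · intro h'
      exfalso
      apply h'
      rw [Finset.mem_Icc]
      exact ⟨Nat.mul_pos hm.1 hk.1, h⟩
  · rw [Finset.sum_eq_zero, Finset.sum_eq_zero]
    · intro s hs
      rw [if_neg]
      intro h'
      apply h
      rw [h']
      exact (Finset.mem_Icc.mp hs).2
    · intro P _
      rw [if_neg h, mul_zero]

end Pool.Agent.Weil
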